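import Mathlib

namespace Pool.Agent.MPc38bc8

variable {X : Type*} [LinearOrder X] {k E : Type*} [Field k] [AddCommGroup E] [Module k E]

/-- The homogeneous relations on words of length `n`: alternating functions. -/
def Alt (n : ℕ) (φ : List X → E) : Prop :=
  ∀ (v : List X) (i j : X) (u : List X), v.length + u.length + 2 = n →
    φ (v ++ i :: j :: u) + φ (v ++ j :: i :: u) = 0

omit [LinearOrder X] in
theorem two_cancel (h2 : (2 : k) ≠ 0) {e : E} (h : e + e = 0) : e = 0 := by
  have h' : (2 : k) • e = 0 := by rw [two_smul, h]
  exact (smul_eq_zero.mp h').resolve_left h2

/-- An alternating function vanishing on strictly sorted words vanishes. -/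
theorem alt_vanish [WellFoundedLT X] (h2 : (2 : k) ≠ 0) : ∀ (n : ℕ) (φ : List X → E), Alt n φ →
    (∀ w : List X, w.length = n → w.IsChain (· < ·) → φ w = 0) →
    ∀ w : List X, w.length = n → φ w = 0 := by
  intro n
  induction n with
  | zero =>
    intro φ _ h0 w hw
    have : w = [] := List.length_eq_zero_iff.mp hw
    subst this
    exact h0 [] rfl List.isChain_nil
  | succ n ih =>
    intro φ hA h0
    have key : ∀ (i : X) (u : List X), u.length = n → φ (i :: u) = 0 := by
      intro i
      induction i using WellFoundedLT.induction with
      | ind i IH =>
        apply ih (fun u => φ (i :: u))
        · intro v a b u hlen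
          exact hA (i :: v) a b u (by simp; omega)
        · intro u hu hs
          show φ (i :: u) = 0
          cases u with
          | nil => exact h0 [i] (by simp at hu ⊢; omega) (List.isChain_singleton i)
          | cons c u' =>
            rcases lt_trichotomy i c with h | h | h
            · exact h0 _ (by simp at hu ⊢; omega) (List.isChain_cons_cons.mpr ⟨h, hs⟩)
            · subst h
              have := hA [] i i u' (by simp at hu ⊢; omega)
              exact two_cancel h2 (by simpa using this)
            · have h1 := hA [] i c u' (by simp at hu ⊢; omega)
              have h3 := IH c h (i :: u') (by simp at hu ⊢; omega)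
              simp only [List.nil_append] at h1
              rw [h3, add_zero] at h1
              exact h1
    intro w hw
    cases w with
    | nil => simp at hw
    | cons i u => exact key i u (by simpa using hw)

/-- Compatibility conditions on the right hand sides. -/
structure Compat (n : ℕ) (β : List X → X → X → List X → E) : Prop where
  sym : ∀ (v : List X) (i j : X) (u : List X), v.length + u.length + 2 = n →
    β v i j u = β v j i u
  far : ∀ (v : List X) (i j : X) (m : List X) (c l : X) (u : List X),
    v.length + m.length + u.length + 4 = n →
    β v i j (m ++ c :: l :: u) + β v i j (m ++ l :: c :: u) =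
      β (v ++ i :: j :: m) c l u + β (v ++ j :: i :: m) c l u
  braid : ∀ (v : List X) (i j c : X) (u : List X), v.length + u.length + 3 = n →
    β v i j (c :: u) - β (v ++ [j]) i c u + β v j c (i :: u) =
      β (v ++ [i]) j c u - β v i c (j :: u) + β (v ++ [c]) i j u
  triple : ∀ (v : List X) (i : X) (u : List X), v.length + u.length + 3 = n →
    β v i i (i :: u) = β (v ++ [i]) i i u

/-- `φ` solves the relations with right hand side `β` on words of length `n`. -/
def Solves (n : ℕ) (β : List X → X → X → List X → E) (φ : List X → E) : Prop :=
  ∀ (v : List X) (i j : X) (u : List X), v.length + u.length + 2 = n →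
    φ (v ++ i :: j :: u) + φ (v ++ j :: i :: u) = β v i j u

omit [LinearOrder X] in
theorem Compat.tail {n : ℕ} {β : List X → X → X → List X → E} (h : Compat (n + 1) β) (a : X) :
    Compat n (fun v => β (a :: v)) where
  sym v i j u hl := h.sym (a :: v) i j u (by simp; omega)
  far v i j m c l u hl := by
    have := h.far (a :: v) i j m c l u (by simp; omega)
    simpa using this
  braid v i j c u hl := by
    have := h.braid (a :: v) i j c u (by simp; omega)
    simpa using this
  triple v i u hl := by
    have := h.triple (a :: v) i u (by simp; omega)
    simpa using this

/-- Sorting lemma: existence of a solution with prescribed values on strictly sorted words. -/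
theorem exists_solution [WellFoundedLT X] (h2 : (2 : k) ≠ 0) : ∀ (n : ℕ) (β : List X → X → X → List X → E),
    Compat n β → ∀ G : List X → E, ∃ φ : List X → E, Solves n β φ ∧
      ∀ w : List X, w.length = n → w.IsChain (· < ·) → φ w = G w := by
  intro n
  induction n with
  | zero =>
    intro β _ G
    exact ⟨G, fun v i j u h => by omega, fun w _ _ => rfl⟩
  | succ n ih =>
    intro β hβ G
    classical
    -- extension operator in length `n`
    let ext : X → (List X → E) → (List X → E) := fun i g =>
      (ih (fun v => β (i :: v)) (hβ.tail i) g).choose
    have ext_spec : ∀ i g, Solves n (fun v => β (i :: v)) (ext i g) ∧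
        ∀ w : List X, w.length = n → w.IsChain (· < ·) → ext i g w = g w := fun i g =>
      (ih (fun v => β (i :: v)) (hβ.tail i) g).choose_spec
    -- the sorted data for first letter `i`, given the functions for smaller letters
    let data : (i : X) → ((y : X) → y < i → (List X → E)) → (List X → E) := fun i rec u =>
      match u with
      | [] => G [i]
      | c :: u' => if i < c then G (i :: c :: u')
          else if h : c < i then - rec c h (i :: u') + β [] i c u'
          else (2 : k)⁻¹ • β [] i i u'
    let F : X → (List X → E) := WellFounded.fix (C := fun _ => List X → E)
      (wellFounded_lt : WellFounded ((· < ·) : X → X → Prop)) (fun i rec => ext i (data i rec))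
    have hF : ∀ i, F i = ext i (data i (fun y _ => F y)) := fun i => by
      simp only [F]
      rw [WellFounded.fix_eq]
    have hS : ∀ i, Solves n (fun v => β (i :: v)) (F i) := fun i => by
      rw [hF]; exact (ext_spec _ _).1
    have hG : ∀ i u, u.length = n → u.IsChain (· < ·) → F i u = data i (fun y _ => F y) u :=
      fun i u hu hs => by
        conv_lhs => rw [hF]
        exact (ext_spec _ _).2 u hu hs
    -- the defect in position zero
    have half : ∀ e f : E, e + e = f → e = (2 : k)⁻¹ • f := fun e f h => by
      rw [← h, ← two_smul k e, smul_smul, inv_mul_cancel₀ h2, one_smul]
    have key : ∀ j i, j ≤ i → ∀ u : List X, u.length + 1 = n →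
        F i (j :: u) + F j (i :: u) = β [] i j u := by
      intro j
      induction j using WellFoundedLT.induction with
      | ind j IH =>
        -- reduction to sorted words
        have red : ∀ i, (∀ u : List X, u.length + 1 = n → u.IsChain (· < ·) →
            F i (j :: u) + F j (i :: u) = β [] i j u) → ∀ u : List X, u.length + 1 = n →
            F i (j :: u) + F j (i :: u) = β [] i j u := by
          intro i hi u hu
          have hv := alt_vanish (k := k) h2 (n - 1)
            (fun u => F i (j :: u) + F j (i :: u) - β [] i j u) ?_ ?_ u (by omega)
          · exact sub_eq_zero.mp hv
          · intro m c l u' hl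
            have e1 := hS i (j :: m) c l u' (by simp; omega)
            have e2 := hS j (i :: m) c l u' (by simp; omega)
            have e3 := hβ.far [] i j m c l u' (by simp; omega)
            simp only [List.cons_append, List.nil_append] at e1 e2 e3
            show F i (j :: (m ++ c :: l :: u')) + F j (i :: (m ++ c :: l :: u'))
              - β [] i j (m ++ c :: l :: u') + (F i (j :: (m ++ l :: c :: u'))
              + F j (i :: (m ++ l :: c :: u')) - β [] i j (m ++ l :: c :: u')) = 0
            have e4 : β [] i j (m ++ c :: l :: u') + β [] i j (m ++ l :: c :: u') =
              (F i (j :: (m ++ c :: l :: u')) + F i (j :: (m ++ l :: c :: u'))) +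
              (F j (i :: (m ++ c :: l :: u')) + F j (i :: (m ++ l :: c :: u'))) := by
              rw [e1, e2, e3]
            rw [← sub_eq_zero] at e4
            rw [← neg_eq_zero, ← e4]
            abel
          · intro w hw hs
            exact sub_eq_zero.mpr (hi w (by omega) hs)
        -- smaller first letter in `u`
        have caseC : ∀ i, j ≤ i → ∀ c u', c < j → (c :: u').length + 1 = n →
            F i (j :: c :: u') + F j (i :: c :: u') = β [] i j (c :: u') := by
          intro i hji c u' hc hl
          have a1 := hS i [] j c u' (by simp at hl ⊢; omega)
          have a2 := IH c hc i (hc.le.trans hji) (j :: u') (by simp at hl ⊢; omega)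
          have a3 := hS j [] i c u' (by simp at hl ⊢; omega)
          have a4 := IH c hc j hc.le (i :: u') (by simp at hl ⊢; omega)
          have a5 := hS c [] i j u' (by simp at hl ⊢; omega)
          have a6 := hβ.braid [] i j c u' (by simp at hl ⊢; omega)
          simp only [List.nil_append] at a1 a2 a3 a4 a5 a6
          have b1 : F i (j :: c :: u') = β [i] j c u' - F i (c :: j :: u') := eq_sub_of_add_eq a1
          have b2 : F i (c :: j :: u') = β [] i c (j :: u') - F c (i :: j :: u') :=
            eq_sub_of_add_eq a2
          have b3 : F j (i :: c :: u') = β [j] i c u' - F j (c :: i :: u') := eq_sub_of_add_eq a3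
          have b4 : F j (c :: i :: u') = β [] j c (i :: u') - F c (j :: i :: u') :=
            eq_sub_of_add_eq a4
          have b6 : β [] i j (c :: u') = β [i] j c u' - β [] i c (j :: u') + β [c] i j u'
              - β [] j c (i :: u') + β [j] i c u' := by
            rw [← a6]; abel
          rw [b1, b2, b3, b4, b6, ← a5]
          abel
        -- the diagonal case
        have diag : ∀ u : List X, u.length + 1 = n →
            F j (j :: u) + F j (j :: u) = β [] j j u := by
          apply red j
          intro u hu hs
          cases u with
          | nil =>
            have h1 : F j [j] = (2 : k)⁻¹ • β [] j j [] := by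
              rw [hG j [j] (by simpa using hu) (List.isChain_singleton j)]
              simp [data]
            rw [h1, ← two_smul k, smul_smul, mul_inv_cancel₀ h2, one_smul]
          | cons c u' =>
            rcases lt_trichotomy j c with h | h | h
            · have h1 : F j (j :: c :: u') = (2 : k)⁻¹ • β [] j j (c :: u') := by
                rw [hG j (j :: c :: u') (by simpa using hu) (List.isChain_cons_cons.mpr ⟨h, hs⟩)]
                simp [data]
              rw [h1, ← two_smul k, smul_smul, mul_inv_cancel₀ h2, one_smul]
            · subst h
              have a1 := hS j [] j j u' (by simp at hu ⊢; omega)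
              have a2 := hβ.triple [] j u' (by simp at hu ⊢; omega)
              simp only [List.nil_append] at a1 a2
              rw [a1, a2]
            · exact caseC j le_rfl c u' h hu
        intro i hji
        rcases hji.eq_or_lt with h | hlt
        · subst h; exact diag
        · apply red i
          intro u hu hs
          cases u with
          | nil =>
            have h1 : F i [j] = - F j [i] + β [] i j [] := by
              rw [hG i [j] (by simpa using hu) (List.isChain_singleton j)]
              simp [data, hlt, hlt.le]
            rw [h1]; abel
          | cons c u' =>
            rcases lt_trichotomy j c with h | h | h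
            · have h1 : F i (j :: c :: u') = - F j (i :: c :: u') + β [] i j (c :: u') := by
                rw [hG i (j :: c :: u') (by simpa using hu) (List.isChain_cons_cons.mpr ⟨h, hs⟩)]
                simp [data, hlt, hlt.le]
              rw [h1]; abel
            · subst h
              have a1 := hS i [] j j u' (by simp at hu ⊢; omega)
              have a3 := hS j [] i j u' (by simp at hu ⊢; omega)
              have a4 := diag (i :: u') (by simp at hu ⊢; omega)
              have a6 := hβ.braid [] i j j u' (by simp at hu ⊢; omega)
              simp only [List.nil_append] at a1 a3 a4 a6
              have b1 := half _ _ a1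
              have b4 := half _ _ a4
              have b3 : F j (i :: j :: u') = β [j] i j u' - F j (j :: i :: u') :=
                eq_sub_of_add_eq a3
              rw [b1, b3, b4]
              have c6 : β [] i j (j :: u') + β [] i j (j :: u') =
                  β [i] j j u' - β [] j j (i :: u') + (β [j] i j u' + β [j] i j u') := by
                rw [← sub_eq_zero] at a6 ⊢
                rw [← a6]; abel
              have c7 := half _ _ c6
              rw [c7, smul_add, smul_sub, ← two_smul k (β [j] i j u'), smul_smul,
                inv_mul_cancel₀ h2, one_smul]
              abel
            · exact caseC i hlt.le c u' h hu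
    refine ⟨fun w => match w with
      | [] => G []
      | i :: u => F i u, ?_, ?_⟩
    · intro v i j u hl
      cases v with
      | nil =>
        show F i (j :: u) + F j (i :: u) = β [] i j u
        rcases le_total j i with h | h
        · exact key j i h u (by simp at hl; omega)
        · rw [add_comm, hβ.sym [] i j u (by simpa using hl)]
          exact key i j h u (by simp at hl; omega)
      | cons a v => exact hS a v i j u (by simp at hl ⊢; omega)
    · intro w hw hs
      cases w with
      | nil => rfl
      | cons i u =>
        show F i u = G (i :: u)
        have hs' : u.IsChain (· < ·) := hs.tail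
        rw [hG i u (by simpa using hw) hs']
        cases u with
        | nil => rfl
        | cons c u' =>
          have : i < c := (List.isChain_cons_cons.mp hs).1
          simp [data, this]

end Pool.Agent.MPc38bc8
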