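import Mathlib
import Pool.Agent.MP_c38bc8_al.Sort

namespace Pool.Agent.MPc38bc8

open Module

/-- A Lie superalgebra in characteristic different from two, in components: `A` is the even part,
`V` the odd part. -/
structure SLie (k : Type*) [Field k] (A V : Type*) [LieRing A] [LieAlgebra k A] [AddCommGroup V]
    [Module k V] [LieRingModule A V] [LieModule k A V] where
  q : V →ₗ[k] V →ₗ[k] A
  symm : ∀ x y, q x y = q y x
  equi : ∀ (a : A) (x y : V), ⁅a, q x y⁆ = q ⁅a, x⁆ y + q x ⁅a, y⁆
  jac : ∀ x, ⁅q x x, x⁆ = 0

variable {k : Type*} [Field k] {A V : Type*} [LieRing A] [LieAlgebra k A] [AddCommGroup V]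
    [Module k V] [LieRingModule A V] [LieModule k A V]

theorem basis_ind {X : Type*} [Fintype X] (b : Basis X k V) {P : V → Prop} (h0 : P 0)
    (hadd : ∀ x y, P x → P y → P (x + y)) (hsmul : ∀ (c : k) x, P x → P (c • x))
    (hb : ∀ i, P (b i)) : ∀ x, P x := by
  intro x
  rw [← b.sum_repr x]
  exact Finset.sum_induction _ P hadd h0 (fun i _ => hsmul _ _ (hb i))

namespace SLie

variable (L : SLie k A V)

theorem jac3 (h2 : (2 : k) ≠ 0) (x y z : V) :
    ⁅L.q x y, z⁆ + ⁅L.q y z, x⁆ + ⁅L.q z x, y⁆ = 0 := by
  have h := L.jac (x + y + z)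
  have hxy := L.jac (x + y)
  have hyz := L.jac (y + z)
  have hxz := L.jac (x + z)
  have hx := L.jac x
  have hy := L.jac y
  have hz := L.jac z
  simp only [map_add, LinearMap.add_apply, add_lie, lie_add] at h hxy hyz hxz
  rw [L.symm y x, L.symm z x, L.symm z y] at *
  apply two_cancel h2
  linear_combination (norm := module) h - hxy - hyz - hxz + hx + hy + hz

end SLie

section Operators

variable {X : Type*} [Fintype X] (b : Basis X k V)
variable {E : Type*} [AddCommGroup E] [Module k E] [LieRingModule A E] [LieModule k A E]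

/-- The contraction with an odd element in the first slot. -/
noncomputable def S : V →ₗ[k] Module.End k (List X → E) :=
  LinearMap.mk₂ k (fun x φ w => ∑ i, b.repr x i • φ (i :: w))
    (fun x y φ => by ext w; simp [add_smul, Finset.sum_add_distrib])
    (fun c x φ => by ext w; simp [mul_smul, Finset.smul_sum])
    (fun x φ ψ => by ext w; simp [Finset.sum_add_distrib])
    (fun c x φ => by ext w; simp [Finset.smul_sum, smul_comm c])

omit [LieRingModule A E] [LieModule k A E] [LieRingModule A V] [LieModule k A V]

theorem S_apply (x : V) (φ : List X → E) (w : List X) :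
    S b x φ w = ∑ i, b.repr x i • φ (i :: w) := rfl

theorem S_basis (i : X) (φ : List X → E) (w : List X) : S b (b i) φ w = φ (i :: w) := by
  classical
  rw [S_apply]
  simp [Finsupp.single_apply]

/-- Shift by a word. -/
def W (v : List X) : Module.End k (List X → E) := LinearMap.funLeft k E (fun w => v ++ w)

omit [Fintype X] in
theorem W_apply (v : List X) (φ : List X → E) (w : List X) : W (k := k) v φ w = φ (v ++ w) := rfl

omit [Fintype X] in
theorem W_nil (φ : List X → E) : W (k := k) [] φ = φ := rfl

theorem W_cons (i : X) (v : List X) (φ : List X → E) :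
    W (k := k) (i :: v) φ = W (k := k) v (S b (b i) φ) := by
  ext w
  rw [W_apply, W_apply, S_basis]
  rfl

omit [Fintype X] in
theorem W_append (v v' : List X) (φ : List X → E) :
    W (k := k) (v ++ v') φ = W (k := k) v' (W (k := k) v φ) := by
  ext w
  simp [W_apply]

end Operators

section Act

variable {X : Type*} [Fintype X] (b : Basis X k V)
variable {E : Type*} [AddCommGroup E] [Module k E] [LieRingModule A E] [LieModule k A E]

/-- Action of the even part, by recursion on the word. -/
noncomputable def actRaw (a : A) : List X → (List X → E) → E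
  | [], φ => ⁅a, φ []⁆
  | i :: w, φ => actRaw a w (fun u => φ (i :: u)) - S b ⁅a, b i⁆ φ w

/-- Action of the even part on functions on words. -/
noncomputable def act : A →ₗ[k] Module.End k (List X → E) :=
  LinearMap.mk₂ k (fun a φ w => actRaw b a w φ)
    (fun a c φ => by
      ext w
      show actRaw b (a + c) w φ = actRaw b a w φ + actRaw b c w φ
      induction w generalizing φ with
      | nil => simp [actRaw]
      | cons i w ih =>
        simp only [actRaw, ih, add_lie, map_add, LinearMap.add_apply, Pi.add_apply]
        abel)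
    (fun r a φ => by
      ext w
      show actRaw b (r • a) w φ = r • actRaw b a w φ
      induction w generalizing φ with
      | nil => simp [actRaw]
      | cons i w ih =>
        simp only [actRaw, ih, smul_lie, map_smul, LinearMap.smul_apply, Pi.smul_apply, smul_sub])
    (fun a φ ψ => by
      ext w
      show actRaw b a w (φ + ψ) = actRaw b a w φ + actRaw b a w ψ
      induction w generalizing φ ψ with
      | nil => simp [actRaw]
      | cons i w ih =>
        have := ih (fun u => φ (i :: u)) (fun u => ψ (i :: u))
        simp only [actRaw, Pi.add_apply, map_add] at this ⊢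
        erw [this]
        abel)
    (fun r a φ => by
      ext w
      show actRaw b a w (r • φ) = r • actRaw b a w φ
      induction w generalizing φ with
      | nil => simp [actRaw]
      | cons i w ih =>
        have := ih (fun u => φ (i :: u))
        simp only [actRaw, Pi.smul_apply, map_smul, smul_sub] at this ⊢
        erw [this])

theorem act_nil (a : A) (φ : List X → E) : act b a φ [] = ⁅a, φ []⁆ := rfl

theorem act_cons (a : A) (φ : List X → E) (i : X) (w : List X) :
    act b a φ (i :: w) = act b a (S b (b i) φ) w - S b ⁅a, b i⁆ φ w := by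
  have : S b (b i) φ = fun u => φ (i :: u) := by ext u; exact S_basis b i φ u
  rw [this]; rfl

theorem S_act (x : V) (a : A) (φ : List X → E) :
    S b x (act b a φ) = act b a (S b x φ) - S b ⁅a, x⁆ φ := by
  refine basis_ind b (P := fun x => S b x (act b a φ) = act b a (S b x φ) - S b ⁅a, x⁆ φ)
    ?_ ?_ ?_ ?_ x
  · simp
  · intro x y hx hy
    simp only [map_add, LinearMap.add_apply, hx, hy, lie_add]
    abel
  · intro c x hx
    simp only [map_smul, LinearMap.smul_apply, hx, lie_smul, smul_sub]
  · intro i
    ext w
    rw [S_basis, act_cons]; rfl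

theorem act_lie (a c : A) (φ : List X → E) :
    act b ⁅a, c⁆ φ = act b a (act b c φ) - act b c (act b a φ) := by
  ext w
  rw [Pi.sub_apply]
  induction w generalizing φ with
  | nil => simp only [act_nil, lie_lie]
  | cons i w ih =>
    rw [act_cons, act_cons, act_cons, ih, S_act, S_act, S_act, S_act]
    simp only [map_sub, Pi.sub_apply, lie_lie, LinearMap.sub_apply]
    abel

/-- Locality of the action. -/
theorem act_congr (a : A) (w : List X) (φ ψ : List X → E)
    (h : ∀ u : List X, u.length = w.length → φ u = ψ u) : act b a φ w = act b a ψ w := by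
  induction w generalizing φ ψ with
  | nil => rw [act_nil, act_nil, h [] rfl]
  | cons i w ih =>
    rw [act_cons, act_cons, ih (S b (b i) φ) (S b (b i) ψ)]
    · congr 1
      rw [S_apply, S_apply]
      exact Finset.sum_congr rfl fun j _ => by rw [h (j :: w) (by simp)]
    · intro u hu
      rw [S_basis, S_basis, h]; simpa using hu

end Act

section PBW

variable {X : Type*} [Fintype X] (b : Basis X k V) (L : SLie k A V)
variable {E : Type*} [AddCommGroup E] [Module k E] [LieRingModule A E] [LieModule k A E]

/-- The relation operator. -/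
noncomputable def R (x y : V) : Module.End k (List X → E) :=
  S b y ∘ₗ S b x + S b x ∘ₗ S b y - act b (L.q x y)

theorem R_apply (x y : V) (φ : List X → E) :
    R b L x y φ = S b y (S b x φ) + S b x (S b y φ) - act b (L.q x y) φ := rfl

theorem R_act (x y : V) (a : A) (φ : List X → E) :
    R b L x y (act b a φ) = act b a (R b L x y φ) - R b L ⁅a, x⁆ y φ - R b L x ⁅a, y⁆ φ := by
  have h := act_lie b a (L.q x y) φ
  rw [L.equi, map_add, LinearMap.add_apply] at h
  simp only [R_apply, S_act, map_add, map_sub]
  linear_combination (norm := module) -h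

/-- The relations hold on words of total length `n`. -/
def Good (n : ℕ) (φ : List X → E) : Prop :=
  ∀ (v : List X) (i j : X) (u : List X), v.length + u.length + 2 = n →
    R b L (b i) (b j) (W (k := k) v φ) u = 0

theorem R_basis (i j : X) (v : List X) (φ : List X → E) (u : List X) :
    R b L (b i) (b j) (W (k := k) v φ) u =
      φ (v ++ i :: j :: u) + φ (v ++ j :: i :: u)
        - act b (L.q (b i) (b j)) (W (k := k) v φ) u := by
  rw [R_apply, Pi.sub_apply, Pi.add_apply, S_basis, S_basis, S_basis, S_basis]
  rfl

theorem Good.rel {n : ℕ} {φ : List X → E} (h : Good b L n φ) (v : List X) (i j : X) (u : List X)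
    (hl : v.length + u.length + 2 = n) :
    φ (v ++ i :: j :: u) + φ (v ++ j :: i :: u) = act b (L.q (b i) (b j)) (W (k := k) v φ) u := by
  have := h v i j u hl
  rw [R_basis] at this
  exact sub_eq_zero.mp this

theorem Good.bilin {n : ℕ} {φ : List X → E} (h : Good b L n φ) (v u : List X)
    (hl : v.length + u.length + 2 = n) (x y : V) : R b L x y (W (k := k) v φ) u = 0 := by
  refine basis_ind b (P := fun x => R b L x y (W (k := k) v φ) u = 0) ?_ ?_ ?_ ?_ x
  · simp [R_apply]
  · intro x x' hx hx'
    have : R b L (x + x') y (W (k := k) v φ) u =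
      R b L x y (W (k := k) v φ) u + R b L x' y (W (k := k) v φ) u := by
      simp only [R_apply, map_add, LinearMap.add_apply, Pi.add_apply, Pi.sub_apply]
      abel
    rw [this, hx, hx', add_zero]
  · intro c x hx
    have : R b L (c • x) y (W (k := k) v φ) u = c • R b L x y (W (k := k) v φ) u := by
      simp only [R_apply, map_smul, LinearMap.smul_apply, Pi.add_apply, Pi.sub_apply,
        Pi.smul_apply, smul_add, smul_sub]
    rw [this, hx, smul_zero]
  · intro i
    refine basis_ind b (P := fun y => R b L (b i) y (W (k := k) v φ) u = 0) ?_ ?_ ?_ ?_ y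
    · simp [R_apply]
    · intro x x' hx hx'
      have : R b L (b i) (x + x') (W (k := k) v φ) u =
        R b L (b i) x (W (k := k) v φ) u + R b L (b i) x' (W (k := k) v φ) u := by
        simp only [R_apply, map_add, LinearMap.add_apply, Pi.add_apply, Pi.sub_apply]
        abel
      rw [this, hx, hx', add_zero]
    · intro c x hx
      have : R b L (b i) (c • x) (W (k := k) v φ) u = c • R b L (b i) x (W (k := k) v φ) u := by
        simp only [R_apply, map_smul, LinearMap.smul_apply, Pi.add_apply, Pi.sub_apply,
          Pi.smul_apply, smul_add, smul_sub]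
      rw [this, hx, smul_zero]
    · intro j
      exact h v i j u hl

theorem Good.add {n : ℕ} {φ ψ : List X → E} (h : Good b L n φ) (h' : Good b L n ψ) :
    Good b L n (φ + ψ) := by
  intro v i j u hl
  rw [map_add, map_add, Pi.add_apply, h v i j u hl, h' v i j u hl, add_zero]

theorem Good.smul {n : ℕ} {φ : List X → E} (c : k) (h : Good b L n φ) :
    Good b L n (c • φ) := by
  intro v i j u hl
  rw [map_smul, map_smul, Pi.smul_apply, h v i j u hl, smul_zero]

theorem Good.zero (n : ℕ) : Good b L n (0 : List X → E) := by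
  intro v i j u hl
  rw [map_zero, map_zero, Pi.zero_apply]

theorem Good.sub {n : ℕ} {φ ψ : List X → E} (h : Good b L n φ) (h' : Good b L n ψ) :
    Good b L n (φ - ψ) := by
  intro v i j u hl
  rw [map_sub, map_sub, Pi.sub_apply, h v i j u hl, h' v i j u hl, sub_zero]

theorem Good.S {n : ℕ} {φ : List X → E} (h : Good b L (n + 1) φ) (x : V) :
    Good b L n (S b x φ) := by
  refine basis_ind b (P := fun x => Good b L n (MPc38bc8.S b x φ)) ?_ ?_ ?_ ?_ x
  · simpa using Good.zero b L n
  · intro x y hx hy
    rw [map_add]; exact hx.add b L hy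
  · intro c x hx
    rw [map_smul]; exact hx.smul b L c
  · intro i v c d u hl
    rw [← W_cons]
    exact h (i :: v) c d u (by simp; omega)

theorem Good.W {n : ℕ} {φ : List X → E} (v : List X) (h : Good b L (v.length + n) φ) :
    Good b L n (W (k := k) v φ) := by
  intro m i j u hl
  rw [← W_append]
  exact h (v ++ m) i j u (by simp; omega)

theorem Good.act {n : ℕ} {φ : List X → E} (h : Good b L n φ) (a : A) :
    Good b L n (act b a φ) := by
  intro v
  induction v generalizing n φ with
  | nil =>
    intro i j u hl
    rw [W_nil, R_act]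
    have h1 := h.bilin b L [] u hl ⁅a, b i⁆ (b j)
    have h3 := h.bilin b L [] u hl (b i) ⁅a, b j⁆
    rw [W_nil] at h1 h3
    rw [Pi.sub_apply, Pi.sub_apply, h1, h3, sub_zero, sub_zero]
    rw [act_congr b a u _ 0, map_zero, Pi.zero_apply]
    intro u' hu'
    exact h [] i j u' (by simpa [hu'] using hl)
  | cons c v ih =>
    intro i j u hl
    rw [W_cons b, S_act, map_sub, map_sub, Pi.sub_apply]
    obtain ⟨m, rfl⟩ : ∃ m, n = m + 1 := ⟨v.length + u.length + 2, by simp at hl; omega⟩
    rw [ih (h.S b L (b c)) i j u (by simp at hl; omega),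
      (h.S b L ⁅a, b c⁆) v i j u (by simp at hl; omega), sub_zero]

/-- Right hand side of the relations coming from a function. -/
noncomputable def betaOf (φ : List X → E) (v : List X) (i j : X) (u : List X) : E :=
  act b (L.q (b i) (b j)) (W (k := k) v φ) u

theorem W_snoc (v : List X) (c : X) (φ : List X → E) :
    W (k := k) (v ++ [c]) φ = MPc38bc8.S b (b c) (W (k := k) v φ) := by
  rw [W_append, W_cons b, W_nil]

theorem compat_betaOf (h2 : (2 : k) ≠ 0) {N : ℕ} {φ : List X → E}
    (h : ∀ m, m + 2 = N → Good b L m φ) : Compat N (betaOf b L φ) where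
  sym v i j u hl := by
    unfold betaOf
    rw [L.symm]
  far v i j m c l u hl := by
    have hg := h (v.length + (m.length + u.length + 2)) (by omega)
    have hg1 := hg.W b L v
    have hg2 := hg1.act b L (L.q (b i) (b j))
    have e := hg2.rel b L m c l u rfl
    unfold betaOf
    rw [e, ← Pi.add_apply, ← map_add]
    apply act_congr
    intro u' hu'
    have := hg.rel b L v i j (m ++ u') (by simp [hu']; omega)
    rw [W_apply, ← this, Pi.add_apply, W_apply, W_apply]
    simp
  braid v i j c u hl := by
    unfold betaOf
    rw [W_snoc b, W_snoc b, W_snoc b, act_cons, act_cons, act_cons]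
    have hj := L.jac3 h2 (b i) (b j) (b c)
    rw [L.symm (b c) (b i)] at hj
    have e : MPc38bc8.S b (⁅L.q (b i) (b j), b c⁆ + ⁅L.q (b j) (b c), b i⁆ +
        ⁅L.q (b i) (b c), b j⁆) (W (k := k) v φ) u = 0 := by
      rw [hj, map_zero]; rfl
    simp only [map_add, LinearMap.add_apply, Pi.add_apply] at e
    linear_combination (norm := module) -e
  triple v i u hl := by
    unfold betaOf
    rw [W_snoc b, act_cons, L.jac, map_zero, LinearMap.zero_apply, Pi.zero_apply, sub_zero]

end PBW

section Ext

variable {X : Type*} [Fintype X] (b : Basis X k V) (L : SLie k A V)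
variable {E : Type*} [AddCommGroup E] [Module k E] [LieRingModule A E] [LieModule k A E]

theorem Good.congr {n : ℕ} {φ ψ : List X → E} (h : Good b L n φ)
    (h1 : ∀ w : List X, w.length = n → φ w = ψ w)
    (h3 : ∀ w : List X, w.length + 2 = n → φ w = ψ w) : Good b L n ψ := by
  intro v i j u hl
  have := h v i j u hl
  rw [R_basis] at this ⊢
  rw [← h1 _ (by simp; omega), ← h1 _ (by simp; omega), ← this]
  congr 1
  apply act_congr
  intro u' hu'
  rw [W_apply, W_apply, h3]
  simp; omega

theorem ext_step [LinearOrder X] (h2 : (2 : k) ≠ 0) (G : List X → E) {n : ℕ} {φ : List X → E}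
    (hg : ∀ m ≤ n, Good b L m φ)
    (hG : ∀ w : List X, w.length ≤ n → w.IsChain (· < ·) → φ w = G w) :
    ∃ ψ : List X → E, ((∀ m ≤ n + 1, Good b L m ψ) ∧
      (∀ w : List X, w.length ≤ n + 1 → w.IsChain (· < ·) → ψ w = G w)) ∧
      ∀ w : List X, w.length ≤ n → ψ w = φ w := by
  have hc : Compat (n + 1) (betaOf b L φ) := compat_betaOf b L h2 fun m hm => hg m (by omega)
  obtain ⟨χ, hχ, hχG⟩ := exists_solution h2 (n + 1) _ hc G
  let ψ : List X → E := fun w => if w.length ≤ n then φ w else χ w
  have h1 : ∀ w : List X, w.length ≤ n → ψ w = φ w := fun w hw => by simp [ψ, hw]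
  have h3 : ∀ w : List X, w.length = n + 1 → ψ w = χ w := fun w hw => by simp [ψ, hw]
  refine ⟨ψ, ⟨?_, ?_⟩, h1⟩
  · intro m hm
    rcases Nat.lt_or_ge n m with h | h
    · obtain rfl : m = n + 1 := by omega
      intro v i j u hl
      rw [R_basis, sub_eq_zero, h3 _ (by simp; omega), h3 _ (by simp; omega), hχ v i j u hl]
      apply act_congr
      intro u' hu'
      rw [W_apply, W_apply, h1 _ (by simp; omega)]
    · exact (hg m h).congr b L (fun w hw => (h1 w (by omega)).symm)
        (fun w hw => (h1 w (by omega)).symm)
  · intro w hw hs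
    rcases Nat.lt_or_ge n w.length with h | h
    · have hw' : w.length = n + 1 := by omega
      rw [h3 w hw', hχG w hw' hs]
    · rw [h1 w h, hG w h hs]

/-- PBW, existence: a function on strictly sorted words extends to an element of the coinduced
module. -/
theorem exists_good [LinearOrder X] (h2 : (2 : k) ≠ 0) (G : List X → E) :
    ∃ φ : List X → E, (∀ n, Good b L n φ) ∧ ∀ w : List X, w.IsChain (· < ·) → φ w = G w := by
  classical
  let P : ℕ → (List X → E) → Prop := fun n φ => (∀ m ≤ n, Good b L m φ) ∧
      (∀ w : List X, w.length ≤ n → w.IsChain (· < ·) → φ w = G w)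
  have h0 : P 0 G := ⟨fun m hm v i j u hl => by omega, fun w _ _ => rfl⟩
  let g : ∀ n, {φ : List X → E // P n φ} := fun n =>
    Nat.rec ⟨G, h0⟩ (fun n φ => ⟨(ext_step b L h2 G φ.2.1 φ.2.2).choose,
      (ext_step b L h2 G φ.2.1 φ.2.2).choose_spec.1⟩) n
  have hg : ∀ n, ∀ w : List X, w.length ≤ n → (g (n + 1)).1 w = (g n).1 w := fun n =>
    (ext_step b L h2 G (g n).2.1 (g n).2.2).choose_spec.2
  let Φ : List X → E := fun w => (g w.length).1 w
  have hΦ : ∀ n, ∀ w : List X, w.length ≤ n → (g n).1 w = Φ w := by
    intro n w hw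
    induction n with
    | zero =>
      have : w.length = 0 := by omega
      show (g 0).1 w = (g w.length).1 w
      rw [this]
    | succ n ih =>
      rcases Nat.lt_or_ge n w.length with h | h
      · have : w.length = n + 1 := by omega
        show (g (n + 1)).1 w = (g w.length).1 w
        rw [this]
      · rw [hg n w h, ih h]
  refine ⟨Φ, fun n => ?_, fun w hw => ?_⟩
  · exact ((g n).2.1 n le_rfl).congr b L (fun w hw => hΦ n w (by omega))
      (fun w hw => hΦ n w (by omega))
  · exact (g w.length).2.2 w le_rfl hw

theorem act_mem (N : Submodule k E) (hN : ∀ (a : A), ∀ e ∈ N, ⁅a, e⁆ ∈ N) (a : A) (w : List X)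
    (φ : List X → E) (h : ∀ u : List X, u.length = w.length → φ u ∈ N) : act b a φ w ∈ N := by
  induction w generalizing φ with
  | nil => rw [act_nil]; exact hN a _ (h [] rfl)
  | cons i w ih =>
    rw [act_cons]
    apply N.sub_mem
    · apply ih
      intro u hu
      rw [S_basis]; exact h _ (by simp [hu])
    · rw [S_apply]
      exact N.sum_mem fun j _ => N.smul_mem _ (h _ (by simp))

/-- Values of an element of the coinduced module on words of length at most `n` lie in a stable
subspace as soon as the values on strictly sorted words do. -/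
theorem values_mem [LinearOrder X] (h2 : (2 : k) ≠ 0) (N : Submodule k E)
    (hN : ∀ (a : A), ∀ e ∈ N, ⁅a, e⁆ ∈ N) {n : ℕ} {φ : List X → E} (hφ : ∀ m ≤ n, Good b L m φ)
    (h : ∀ w : List X, w.length ≤ n → w.IsChain (· < ·) → φ w ∈ N) :
    ∀ w : List X, w.length ≤ n → φ w ∈ N := by
  have key : ∀ l, l ≤ n → ∀ w : List X, w.length = l → φ w ∈ N := by
    intro l
    induction l using Nat.strong_induction_on with
    | _ l ih =>
      intro hl w hw
      have := alt_vanish (k := k) h2 l (fun w => (Submodule.Quotient.mk (φ w) : E ⧸ N)) ?_ ?_ w hw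
      · exact (Submodule.Quotient.mk_eq_zero N).mp this
      · intro v i j u hlen
        rw [← Submodule.Quotient.mk_add, (hφ l hl).rel b L v i j u hlen,
          Submodule.Quotient.mk_eq_zero]
        apply act_mem b N hN
        intro u' hu'
        exact ih (v ++ u').length (by simp; omega) (by simp; omega) _ rfl
      · intro w hw hs
        exact (Submodule.Quotient.mk_eq_zero N).mpr (h w (by omega) hs)
  exact fun w hw => key w.length hw w rfl

/-- The coinduced module. -/
def C : Submodule k (List X → E) where
  carrier := {φ | ∀ n, Good b L n φ}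
  add_mem' h h' n := (h n).add b L (h' n)
  zero_mem' n := Good.zero b L n
  smul_mem' c _ h n := (h n).smul b L c

variable {b L}

theorem C.S_mem {φ : List X → E} (h : φ ∈ C b L) (x : V) : S b x φ ∈ C b L :=
  fun n => (h (n + 1)).S b L x

theorem C.act_mem {φ : List X → E} (h : φ ∈ C b L) (a : A) : act b a φ ∈ C b L :=
  fun n => (h n).act b L a

theorem C.R_eq {φ : List X → E} (h : φ ∈ C b L) (x y : V) :
    S b y (S b x φ) + S b x (S b y φ) = act b (L.q x y) φ := by
  rw [← sub_eq_zero]
  ext u
  exact (h (u.length + 2)).bilin b L [] u (by simp) x y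

theorem C.values [LinearOrder X] (h2 : (2 : k) ≠ 0) (N : Submodule k E)
    (hN : ∀ (a : A), ∀ e ∈ N, ⁅a, e⁆ ∈ N) {φ : List X → E} (hφ : φ ∈ C b L)
    (h : ∀ w : List X, w.IsChain (· < ·) → φ w ∈ N) (w : List X) : φ w ∈ N :=
  values_mem b L h2 N hN (n := w.length) (fun m _ => hφ m) (fun w _ hw => h w hw) w le_rfl

theorem C.vanish [LinearOrder X] (h2 : (2 : k) ≠ 0) {n : ℕ} {φ : List X → E} (hφ : φ ∈ C b L)
    (h : ∀ w : List X, w.length ≤ n → w.IsChain (· < ·) → φ w = 0) (w : List X)
    (hw : w.length ≤ n) : φ w = 0 := by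
  have := values_mem b L h2 (⊥ : Submodule k E) (fun a e he => by
    rw [Submodule.mem_bot] at he ⊢; rw [he, lie_zero]) (n := n) (fun m _ => hφ m)
    (fun w hw hs => by rw [Submodule.mem_bot]; exact h w hw hs) w hw
  simpa using this

theorem C.eq_zero [LinearOrder X] (h2 : (2 : k) ≠ 0) {φ : List X → E} (hφ : φ ∈ C b L)
    (h : ∀ w : List X, w.IsChain (· < ·) → φ w = 0) : φ = 0 := by
  ext w
  exact C.vanish h2 (n := w.length) hφ (fun w _ hs => h w hs) w le_rfl

theorem C.exists_ext [LinearOrder X] (h2 : (2 : k) ≠ 0) (G : List X → E) :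
    ∃ φ ∈ C b L, ∀ w : List X, w.IsChain (· < ·) → φ w = G w := exists_good b L h2 G

theorem finite_chains [LinearOrder X] : Finite {w : List X // w.IsChain (· < ·)} := by
  have : {w : List X | w.IsChain (· < ·)}.Finite := by
    apply (List.finite_length_le X (Fintype.card X)).subset
    intro w hw
    have hn : w.Nodup := (List.isChain_iff_pairwise.mp hw).imp (fun h => ne_of_lt h)
    exact hn.length_le_card
  exact this.to_subtype

theorem C.finite [LinearOrder X] (h2 : (2 : k) ≠ 0) (D : Submodule k (List X → E))
    (hD : D ≤ C b L) (N : Submodule k E) [FiniteDimensional k N]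
    (h : ∀ φ ∈ D, ∀ w, φ w ∈ N) : FiniteDimensional k D := by
  have : Finite {w : List X // w.IsChain (· < ·)} := finite_chains
  let T : D →ₗ[k] ({w : List X // w.IsChain (· < ·)} → N) :=
    { toFun := fun φ w => ⟨φ.1 w.1, h φ.1 φ.2 w.1⟩
      map_add' := fun φ ψ => rfl
      map_smul' := fun c φ => rfl }
  apply FiniteDimensional.of_injective T
  rw [← LinearMap.ker_eq_bot, LinearMap.ker_eq_bot']
  intro φ hφ
  ext1
  apply C.eq_zero h2 (hD φ.2)
  intro w hw
  have := congrFun hφ ⟨w, hw⟩
  exact congrArg Subtype.val this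

end Ext

end Pool.Agent.MPc38bc8
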