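import Mathlib
import Pool.Agent.MP_c38bc8_al.Coind

namespace Pool.Agent.MPc38bc8

open Module

variable {k : Type*} [Field k] {A V : Type*} [LieRing A] [LieAlgebra k A] [AddCommGroup V]
    [Module k V] [LieRingModule A V] [LieModule k A V]

section Transfer

variable {X : Type*} [Fintype X] (b : Basis X k V) {Y : Type*} [Fintype Y] (b' : Basis Y k V)
variable {E : Type*} [AddCommGroup E] [Module k E] [LieRingModule A E] [LieModule k A E]

omit [LieRingModule A V] [LieModule k A V] [LieRingModule A E] [LieModule k A E]

/-- Change of basis, by recursion on the word. -/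
noncomputable def tRaw : List Y → (List X → E) → E
  | [], φ => φ []
  | j :: w, φ => tRaw w (S b (b' j) φ)

/-- Change of basis. -/
noncomputable def T : (List X → E) →ₗ[k] (List Y → E) where
  toFun φ w := tRaw b b' w φ
  map_add' φ ψ := by
    ext w
    show tRaw b b' w (φ + ψ) = tRaw b b' w φ + tRaw b b' w ψ
    induction w generalizing φ ψ with
    | nil => rfl
    | cons j w ih => simp only [tRaw, map_add, ih]
  map_smul' c φ := by
    ext w
    show tRaw b b' w (c • φ) = c • tRaw b b' w φ
    induction w generalizing φ with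
    | nil => rfl
    | cons j w ih => simp only [tRaw, map_smul, ih]

omit [Fintype Y] in
theorem T_nil (φ : List X → E) : T b b' φ [] = φ [] := rfl

omit [Fintype Y] in
theorem T_cons (φ : List X → E) (j : Y) (w : List Y) :
    T b b' φ (j :: w) = T b b' (S b (b' j) φ) w := rfl

theorem S_T (x : V) (φ : List X → E) : S b' x (T b b' φ) = T b b' (S b x φ) := by
  refine basis_ind b' (P := fun x => S b' x (T b b' φ) = T b b' (S b x φ)) ?_ ?_ ?_ ?_ x
  · simp
  · intro x y hx hy
    simp only [map_add, LinearMap.add_apply, hx, hy]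
  · intro c x hx
    simp only [map_smul, LinearMap.smul_apply, hx]
  · intro i
    ext w
    rw [S_basis, T_cons]

theorem T_T (φ : List X → E) : T b' b (T b b' φ) = φ := by
  ext w
  induction w generalizing φ with
  | nil => rfl
  | cons i w ih => rw [T_cons, S_T, ih, S_basis]

theorem T_values (N : Submodule k E) {φ : List X → E} (h : ∀ w, φ w ∈ N) (w : List Y) :
    T b b' φ w ∈ N := by
  induction w generalizing φ with
  | nil => exact h []
  | cons j w ih =>
    rw [T_cons]
    apply ih
    intro u
    rw [S_apply]
    exact N.sum_mem fun i _ => N.smul_mem _ (h _)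

end Transfer

section Transfer2

variable {X : Type*} [Fintype X] (b : Basis X k V) {Y : Type*} [Fintype Y] (b' : Basis Y k V)
variable {E : Type*} [AddCommGroup E] [Module k E] [LieRingModule A E] [LieModule k A E]

theorem act_T (a : A) (φ : List X → E) : act b' a (T b b' φ) = T b b' (act b a φ) := by
  ext w
  induction w generalizing φ with
  | nil => rfl
  | cons j w ih =>
    rw [act_cons, T_cons, S_act, S_T, S_T, ih, map_sub]; rfl

theorem T_mem (L : SLie k A V) {φ : List X → E} (h : φ ∈ C b L) : T b b' φ ∈ C b' L := by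
  intro n v
  induction v generalizing n φ with
  | nil =>
    intro i j u hl
    rw [W_nil, R_apply, S_T, S_T, S_T, S_T, act_T, ← map_add, C.R_eq h, sub_self]; rfl
  | cons c v ih =>
    intro i j u hl
    rw [W_cons b', S_T]
    exact ih (C.S_mem h (b' c)) (n - 1) i j u (by simp at hl; omega)

/-- A nonzero vector is the first vector of a basis indexed by `Fin (m + 1)`. -/
theorem exists_basis_zero [FiniteDimensional k V] {x : V} (hx : x ≠ 0) :
    ∃ (m : ℕ) (b : Basis (Fin (m + 1)) k V), b 0 = x := by
  classical
  have hli : LinearIndepOn k id ({x} : Set V) := LinearIndepOn.singleton hx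
  let B := Basis.extend hli
  have hfin : Finite ↑(hli.extend (Set.subset_univ _)) := Module.Finite.finite_basis B
  have hmem : x ∈ hli.extend (Set.subset_univ _) :=
    (hli.subset_extend (Set.subset_univ _)) (Set.mem_singleton x)
  let i0 : ↑(hli.extend (Set.subset_univ _)) := ⟨x, hmem⟩
  obtain ⟨n, ⟨e⟩⟩ := Finite.exists_equiv_fin ↑(hli.extend (Set.subset_univ _))
  obtain ⟨m, rfl⟩ : ∃ m, n = m + 1 := by
    cases n with
    | zero => exact (e i0).elim0
    | succ m => exact ⟨m, rfl⟩
  refine ⟨m, B.reindex (e.trans (Equiv.swap (e i0) 0)), ?_⟩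
  rw [Basis.reindex_apply]
  have : (e.trans (Equiv.swap (e i0) 0)).symm 0 = i0 := by
    rw [Equiv.symm_apply_eq]; simp
  rw [this]
  simp [B, i0]

/-- The coinduced module is free over the exterior algebra generated by an odd `x` with
`[x,x] = 0`. -/
theorem C.exact [FiniteDimensional k V] (L : SLie k A V) (h2 : (2 : k) ≠ 0) {x : V} (hx : x ≠ 0)
    (hxx : L.q x x = 0) (N : Submodule k E) (hN : ∀ (a : A), ∀ e ∈ N, ⁅a, e⁆ ∈ N)
    {φ : List X → E} (hφ : φ ∈ C b L) (hφN : ∀ w, φ w ∈ N) (h0 : S b x φ = 0) :
    ∃ ψ ∈ C b L, (∀ w, ψ w ∈ N) ∧ S b x ψ = φ := by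
  obtain ⟨m, b', hb'⟩ := exists_basis_zero (k := k) hx
  have hφ' := T_mem b b' L hφ
  have h0' : S b' x (T b b' φ) = 0 := by rw [S_T, h0, map_zero]
  let G : List (Fin (m + 1)) → E := fun w => match w with
    | [] => 0
    | i :: w => if i = 0 then T b b' φ w else 0
  obtain ⟨ψ, hψ, hG⟩ := C.exists_ext (b := b') (L := L) h2 G
  have key : S b' x ψ = T b b' φ := by
    rw [← sub_eq_zero]
    apply C.eq_zero (b := b') (L := L) h2 (Submodule.sub_mem _ (C.S_mem hψ x) hφ')
    intro w hw
    rw [Pi.sub_apply, sub_eq_zero, ← hb', S_basis]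
    cases w with
    | nil => rw [hG [0] (List.isChain_singleton 0)]; simp [G]
    | cons i w =>
      rcases eq_or_ne i 0 with rfl | hi
      · have e1 : ψ (0 :: 0 :: w) = 0 := by
          have := C.R_eq hψ x x
          rw [hxx, map_zero] at this
          have := congrFun this w
          rw [← hb'] at this
          simp only [Pi.add_apply, S_basis] at this
          exact two_cancel h2 this
        have e2 : T b b' φ (0 :: w) = 0 := by
          have := congrFun h0' w
          rw [← hb', S_basis] at this
          exact this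
        rw [e1, e2]
      · rw [hG (0 :: i :: w) (List.isChain_cons_cons.mpr ⟨Fin.pos_of_ne_zero hi, hw⟩)]
        simp [G]
  refine ⟨T b' b ψ, T_mem b' b L hψ, ?_, ?_⟩
  · apply T_values
    apply C.values h2 N hN hψ
    intro w hw
    rw [hG w hw]
    cases w with
    | nil => exact N.zero_mem
    | cons i w =>
      show (if i = 0 then T b b' φ w else 0) ∈ N
      split_ifs
      · exact T_values b b' N hφN w
      · exact N.zero_mem
  rw [S_T, key, T_T]

end Transfer2

end Pool.Agent.MPc38bc8
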