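import Mathlib
import Pool.Agent.MP_c38bc8_al.Transfer

namespace Pool.Agent.MPc38bc8

open Module

variable {k : Type*} [Field k] {A V : Type*} [LieRing A] [LieAlgebra k A] [AddCommGroup V]
    [Module k V] [LieRingModule A V] [LieModule k A V]

section Pol

variable {X : Type*} [Fintype X]

/-- Polynomial functions on `V`, in the coordinates of the basis `b`. -/
def Pol (_b : Basis X k V) : Type _ := MvPolynomial X k

noncomputable instance (b : Basis X k V) : CommRing (Pol b) :=
  inferInstanceAs (CommRing (MvPolynomial X k))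

noncomputable instance (b : Basis X k V) : Algebra k (Pol b) :=
  inferInstanceAs (Algebra k (MvPolynomial X k))

variable (b : Basis X k V)

/-- Coordinates. -/
noncomputable def t (i : X) : Pol b := (MvPolynomial.X i : MvPolynomial X k)

/-- Linear functions. -/
noncomputable def lin : (V →ₗ[k] k) →ₗ[k] Pol b where
  toFun ℓ := ∑ j, ℓ (b j) • t b j
  map_add' ℓ ℓ' := by simp [add_smul, Finset.sum_add_distrib]
  map_smul' c ℓ := by simp [mul_smul, Finset.smul_sum]

/-- The endomorphism of `V` given by an even element. -/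
def adV (a : A) : V →ₗ[k] V := (LieModule.toEnd k A V a : V →ₗ[k] V)

theorem adV_apply (a : A) (x : V) : adV (k := k) a x = ⁅a, x⁆ := rfl

/-- The derivation of the polynomial ring given by an even element. -/
noncomputable def D (a : A) : Derivation k (Pol b) (Pol b) :=
  (MvPolynomial.mkDerivation k (fun i => (-lin b (b.coord i ∘ₗ adV a) : Pol b)) :
    Derivation k (MvPolynomial X k) (MvPolynomial X k))

theorem D_t (a : A) (i : X) : D b a (t b i) = -lin b (b.coord i ∘ₗ adV a) :=
  MvPolynomial.mkDerivation_X (A := MvPolynomial X k) k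
    (fun i => (-lin b (b.coord i ∘ₗ adV a) : Pol b)) i

theorem D_lin (a : A) (ℓ : V →ₗ[k] k) : D b a (lin b ℓ) = - lin b (ℓ ∘ₗ adV a) := by
  have h : ∀ x : V, ℓ x = ∑ j, ℓ (b j) * b.coord j x := by
    intro x
    conv_lhs => rw [← b.sum_repr x, map_sum]
    exact Finset.sum_congr rfl fun j _ => by rw [map_smul, smul_eq_mul, mul_comm]; rfl
  have h' : ℓ ∘ₗ adV a = ∑ j, ℓ (b j) • (b.coord j ∘ₗ adV a) := by
    ext x
    rw [LinearMap.comp_apply, h]
    simp
  rw [h', map_sum, ← Finset.sum_neg_distrib]
  show D b a (∑ j, ℓ (b j) • t b j) = _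
  rw [map_sum]
  exact Finset.sum_congr rfl fun j _ => by rw [Derivation.map_smul, D_t, map_smul, smul_neg]

omit [Fintype X] in
theorem der_ext {D1 D2 : Derivation k (Pol b) (Pol b)} (h : ∀ i, D1 (t b i) = D2 (t b i)) :
    D1 = D2 := by
  have : ∀ (D1 D2 : Derivation k (MvPolynomial X k) (MvPolynomial X k)),
    (∀ i, D1 (MvPolynomial.X i) = D2 (MvPolynomial.X i)) → D1 = D2 :=
    fun _ _ h => MvPolynomial.derivation_ext h
  exact this D1 D2 h

theorem D_add (a c : A) : D b (a + c) = D b a + D b c := by
  apply der_ext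
  intro i
  have : (adV (a + c) : V →ₗ[k] V) = adV a + adV c := by ext x; simp [adV]
  rw [Derivation.add_apply, D_t, D_t, D_t, this, LinearMap.comp_add, map_add]
  abel

theorem D_smul (r : k) (a : A) : D b (r • a) = r • D b a := by
  apply der_ext
  intro i
  have : (adV (r • a) : V →ₗ[k] V) = r • adV a := by ext x; simp [adV]
  rw [Derivation.smul_apply, D_t, D_t, this, LinearMap.comp_smul, map_smul, smul_neg]

theorem D_lie (a c : A) : D b ⁅a, c⁆ = ⁅D b a, D b c⁆ := by
  apply der_ext
  intro i
  have : (adV ⁅a, c⁆ : V →ₗ[k] V) = adV a ∘ₗ adV c - adV c ∘ₗ adV a := by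
    ext x; simp [adV_apply]
  rw [Derivation.commutator_apply, D_t, D_t, D_t, map_neg, map_neg, D_lin, D_lin, this,
    LinearMap.comp_sub, map_sub, LinearMap.comp_assoc, LinearMap.comp_assoc]
  abel

noncomputable instance : LieRingModule A (Pol b) where
  bracket a p := D b a p
  add_lie a c p := by
    show D b (a + c) p = D b a p + D b c p
    rw [D_add]; rfl
  lie_add a p q := map_add (D b a) p q
  leibniz_lie a c p := by
    show D b a (D b c p) = D b ⁅a, c⁆ p + D b c (D b a p)
    rw [D_lie, Derivation.commutator_apply]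
    abel

theorem lie_def (a : A) (p : Pol b) : ⁅a, p⁆ = D b a p := rfl

noncomputable instance : LieModule k A (Pol b) where
  smul_lie r a p := by
    rw [lie_def, lie_def, D_smul]; rfl
  lie_smul r a p := by
    rw [lie_def, lie_def]
    exact (D b a).map_smul r p

/-- The differential. -/
noncomputable def d : Module.End k (List X → Pol b) where
  toFun φ w := ∑ i, t b i * φ (w ++ [i])
  map_add' φ ψ := by ext w; simp [mul_add, Finset.sum_add_distrib]
  map_smul' c φ := by ext w; simp [Finset.smul_sum]

theorem d_apply (φ : List X → Pol b) (w : List X) : d b φ w = ∑ i, t b i * φ (w ++ [i]) := rfl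

theorem d_S (x : V) (φ : List X → Pol b) : d b (S b x φ) = S b x (d b φ) := by
  ext w
  rw [d_apply, S_apply]
  simp only [S_apply, d_apply, Finset.mul_sum, Finset.smul_sum]
  rw [Finset.sum_comm]
  refine Finset.sum_congr rfl fun i _ => Finset.sum_congr rfl fun j _ => ?_
  rw [mul_smul_comm]
  rfl

theorem d_act (a : A) (φ : List X → Pol b) : d b (act b a φ) = act b a (d b φ) := by
  ext w
  induction w generalizing φ with
  | nil =>
    rw [act_nil, d_apply, d_apply, lie_sum]
    simp only [List.nil_append, act_cons, act_nil, mul_sub, Finset.sum_sub_distrib, S_basis]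
    have e : ∀ i, ⁅a, t b i * φ [i]⁆ = t b i * ⁅a, φ [i]⁆ - lin b (b.coord i ∘ₗ adV a) * φ [i] := by
      intro i
      rw [lie_def, lie_def, Derivation.leibniz, D_t, smul_eq_mul, smul_eq_mul]
      ring
    simp only [e, Finset.sum_sub_distrib]
    congr 1
    simp only [S_apply, lin, LinearMap.coe_mk, AddHom.coe_mk, Finset.sum_mul, Finset.mul_sum]
    rw [Finset.sum_comm]
    refine Finset.sum_congr rfl fun i _ => Finset.sum_congr rfl fun j _ => ?_
    rw [mul_smul_comm, smul_mul_assoc]
    rfl
  | cons j w ih =>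
    have h1 : d b (act b a φ) (j :: w) = S b (b j) (d b (act b a φ)) w := (S_basis b j _ w).symm
    rw [h1, ← d_S, S_act, map_sub, Pi.sub_apply, ih, act_cons, d_S, d_S]

/-- Evaluation at a point of `V`. -/
noncomputable def ev (x : V) : Pol b →ₐ[k] k :=
  (MvPolynomial.aeval (fun i => b.repr x i) : MvPolynomial X k →ₐ[k] k)

omit [Fintype X] in
theorem ev_t (x : V) (i : X) : ev b x (t b i) = b.repr x i :=
  MvPolynomial.aeval_X _ _

theorem ev_lin (x : V) (ℓ : V →ₗ[k] k) : ev b x (lin b ℓ) = ℓ x := by
  conv_rhs => rw [← b.sum_repr x, map_sum]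
  show ev b x (∑ j, ℓ (b j) • t b j) = _
  rw [map_sum]
  exact Finset.sum_congr rfl fun j _ => by
    rw [map_smul, map_smul, ev_t, smul_eq_mul, smul_eq_mul, mul_comm]

theorem ev_ext [Infinite k] {p q : Pol b} (h : ∀ x : V, ev b x p = ev b x q) : p = q := by
  have : ∀ (p q : MvPolynomial X k), (∀ x : X → k, MvPolynomial.eval x p = MvPolynomial.eval x q)
    → p = q := fun p q h => MvPolynomial.funext h
  apply this
  intro x
  have h1 := h (b.equivFun.symm x)
  have h3 : (fun i => b.repr (b.equivFun.symm x) i) = x := by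
    ext i
    rw [← Basis.equivFun_apply, LinearEquiv.apply_symm_apply]
  simp only [ev, h3] at h1
  exact h1

theorem W_d (v : List X) (φ : List X → Pol b) :
    W (k := k) v (d b φ) = d b (W (k := k) v φ) := by
  ext w
  simp [W_apply, d_apply]

variable (L : SLie k A V)

theorem R_d (x y : V) (φ : List X → Pol b) : R b L x y (d b φ) = d b (R b L x y φ) := by
  rw [R_apply, R_apply, map_sub, map_add, d_act, d_S, d_S, d_S, d_S]

theorem R_C {φ : List X → Pol b} (h : φ ∈ C b L) (v : List X) (i j : X) :
    R b L (b i) (b j) (W (k := k) v φ) = 0 := by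
  ext1 u
  exact h _ v i j u rfl

theorem d_mem {φ : List X → Pol b} (h : φ ∈ C b L) : d b φ ∈ C b L := by
  intro n v i j u hl
  rw [W_d, R_d, R_C b L h, map_zero]; rfl

theorem delta_zero [Infinite k] (p : Pol b) :
    ∑ i, ∑ j, t b i * (t b j * D b (L.q (b i) (b j)) p) = 0 := by
  have h : (∑ i, ∑ j, (t b i * t b j) • D b (L.q (b i) (b j)) : Derivation k (Pol b) (Pol b)) = 0 := by
    apply der_ext
    intro l
    rw [Derivation.zero_apply]
    apply ev_ext
    intro x
    have e1 : ∀ (s : Finset X) (f : X → Derivation k (Pol b) (Pol b)) (p : Pol b),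
        (∑ i ∈ s, f i) p = ∑ i ∈ s, f i p := by
      intro s f p
      classical
      induction s using Finset.induction_on with
      | empty => simp
      | insert a s ha ih => rw [Finset.sum_insert ha, Finset.sum_insert ha, Derivation.add_apply, ih]
    have e3 : L.q x x = ∑ i, ∑ j, (b.repr x i * b.repr x j) • L.q (b i) (b j) := by
      conv_lhs => rw [← b.sum_repr x]
      simp only [map_sum, LinearMap.sum_apply, map_smul, LinearMap.smul_apply, Finset.smul_sum,
        smul_smul]
      rw [Finset.sum_comm]
      exact Finset.sum_congr rfl fun i _ => Finset.sum_congr rfl fun j _ => by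
        rw [mul_comm]
    rw [e1, map_sum, map_zero]
    simp only [e1, map_sum, Derivation.smul_apply, smul_eq_mul, map_mul, ev_t, D_t, map_neg,
      ev_lin, LinearMap.comp_apply, adV_apply]
    have e4 := congrArg (b.coord l) (L.jac x)
    rw [e3] at e4
    simp only [sum_lie, smul_lie, map_sum, map_smul, map_zero, smul_eq_mul] at e4
    rw [← neg_eq_zero, ← e4]
    simp only [mul_neg, Finset.sum_neg_distrib, neg_neg]
  have h' := congrArg (fun (f : Derivation k (Pol b) (Pol b)) => f p) h
  simp only [Derivation.zero_apply] at h'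
  rw [← h']
  have e1 : ∀ (s : Finset X) (f : X → Derivation k (Pol b) (Pol b)) (p : Pol b),
        (∑ i ∈ s, f i) p = ∑ i ∈ s, f i p := by
      intro s f p
      classical
      induction s using Finset.induction_on with
      | empty => simp
      | insert a s ha ih => rw [Finset.sum_insert ha, Finset.sum_insert ha, Derivation.add_apply, ih]
  simp only [e1, Derivation.smul_apply, smul_eq_mul, mul_assoc]

theorem d_d [Infinite k] (h2 : (2 : k) ≠ 0) {φ : List X → Pol b} (h : φ ∈ C b L) :
    d b (d b φ) = 0 := by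
  ext1 w
  apply two_cancel h2
  have e1 : d b (d b φ) w = ∑ i, ∑ j, t b i * (t b j * φ (w ++ i :: j :: [])) := by
    simp only [d_apply, Finset.mul_sum]
    simp
  have e2 : d b (d b φ) w = ∑ i, ∑ j, t b i * (t b j * φ (w ++ j :: i :: [])) := by
    rw [e1, Finset.sum_comm]
    refine Finset.sum_congr rfl fun i _ => Finset.sum_congr rfl fun j _ => ?_
    ring
  nth_rewrite 1 [e1]
  rw [e2, ← delta_zero b L (φ w), ← Finset.sum_add_distrib]
  refine Finset.sum_congr rfl fun i _ => ?_
  rw [← Finset.sum_add_distrib]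
  refine Finset.sum_congr rfl fun j _ => ?_
  have := (h (w.length + 2)).rel b L w i j [] (by simp)
  rw [← mul_add, ← mul_add, this, act_nil, W_apply, List.append_nil, lie_def]

end Pol

end Pool.Agent.MPc38bc8
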