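import Mathlib
import Pool.Agent.MP_c38bc8_al.Koszul

namespace Pool.Agent.MPc38bc8

open Module

section Mono

variable {k : Type*} [Field k] {X : Type*} [LinearOrder X]

/-- Keep the monomials involving only variables `≤ m`. -/
noncomputable def trunc (m : X) : MvPolynomial X k →ₗ[k] MvPolynomial X k := by
  classical
  exact (MvPolynomial.basisMonomials X k).constr k
    (fun α => if ∀ l, m < l → α l = 0 then MvPolynomial.monomial α 1 else 0)

/-- Keep the monomials whose largest variable is `m`, divided by this variable. -/
noncomputable def divs (m : X) : MvPolynomial X k →ₗ[k] MvPolynomial X k := by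
  classical
  exact (MvPolynomial.basisMonomials X k).constr k
    (fun α => if 0 < α m ∧ ∀ l, m < l → α l = 0 then
      MvPolynomial.monomial (α - Finsupp.single m 1) 1 else 0)

theorem trunc_mono (m : X) (α : X →₀ ℕ) [Decidable (∀ l, m < l → α l = 0)] :
    trunc m (MvPolynomial.monomial α (1 : k)) =
      if ∀ l, m < l → α l = 0 then MvPolynomial.monomial α (1 : k) else 0 := by
  classical
  have := (MvPolynomial.basisMonomials X k).constr_basis k
    (fun α => if ∀ l, m < l → α l = 0 then (MvPolynomial.monomial α (1 : k)) else 0) α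
  simp only [MvPolynomial.coe_basisMonomials] at this
  unfold trunc
  rw [this]
  congr

theorem divs_mono (m : X) (α : X →₀ ℕ) [Decidable (0 < α m ∧ ∀ l, m < l → α l = 0)] :
    divs m (MvPolynomial.monomial α (1 : k)) =
      if 0 < α m ∧ ∀ l, m < l → α l = 0 then
        MvPolynomial.monomial (α - Finsupp.single m 1) (1 : k) else 0 := by
  classical
  have := (MvPolynomial.basisMonomials X k).constr_basis k
    (fun α => if 0 < α m ∧ ∀ l, m < l → α l = 0 then
      (MvPolynomial.monomial (α - Finsupp.single m 1) (1 : k)) else 0) α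
  simp only [MvPolynomial.coe_basisMonomials] at this
  unfold divs
  rw [this]
  congr

omit [LinearOrder X] in
theorem mono_ext {F G : MvPolynomial X k →ₗ[k] MvPolynomial X k}
    (h : ∀ α : X →₀ ℕ, F (MvPolynomial.monomial α 1) = G (MvPolynomial.monomial α 1)) (p) :
    F p = G p := by
  have : F = G := (MvPolynomial.basisMonomials X k).ext fun α => by
    simpa [MvPolynomial.coe_basisMonomials] using h α
  rw [this]

omit [LinearOrder X] in
theorem X_mul_mono (i : X) (α : X →₀ ℕ) : (MvPolynomial.X i : MvPolynomial X k) *
    MvPolynomial.monomial α 1 = MvPolynomial.monomial (α + Finsupp.single i 1) 1 := by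
  rw [MvPolynomial.X, MvPolynomial.monomial_mul, one_mul, add_comm]

theorem divs_lt {i m : X} (h : i < m) (p : MvPolynomial X k) :
    divs m (MvPolynomial.X i * p) = MvPolynomial.X i * divs m p := by
  classical
  refine mono_ext (F := divs m ∘ₗ LinearMap.mulLeft k (MvPolynomial.X i))
    (G := LinearMap.mulLeft k (MvPolynomial.X i) ∘ₗ divs m) (fun α => ?_) p
  simp only [LinearMap.comp_apply, LinearMap.mulLeft_apply]
  rw [X_mul_mono, divs_mono, divs_mono]
  have e1 : (α + Finsupp.single i 1 : X →₀ ℕ) m = α m := by simp [h.ne]
  have e2 : ∀ l, m < l → (α + Finsupp.single i 1 : X →₀ ℕ) l = α l := fun l hl => by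
    simp [(h.trans hl).ne]
  have e3 : (∀ l, m < l → (α + Finsupp.single i 1 : X →₀ ℕ) l = 0) ↔ ∀ l, m < l → α l = 0 := by
    constructor
    · intro H l hl; rw [← e2 l hl]; exact H l hl
    · intro H l hl; rw [e2 l hl]; exact H l hl
  rw [e1]
  by_cases hc : 0 < α m ∧ ∀ l, m < l → α l = 0
  · rw [if_pos hc, if_pos ⟨hc.1, e3.mpr hc.2⟩, X_mul_mono]
    have e4 : α + Finsupp.single i 1 - Finsupp.single m 1 =
        α - Finsupp.single m 1 + Finsupp.single i 1 := by
      ext l
      simp only [Finsupp.tsub_apply, Finsupp.add_apply, Finsupp.single_apply]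
      by_cases hl : m = l
      · subst hl
        have := hc.1
        simp [h.ne]
      · simp [hl]
    rw [e4]
  · rw [if_neg hc, if_neg (fun H => hc ⟨H.1, e3.mp H.2⟩), mul_zero]

theorem divs_self (m : X) (p : MvPolynomial X k) :
    divs m (MvPolynomial.X m * p) = trunc m p := by
  classical
  refine mono_ext (F := divs m ∘ₗ LinearMap.mulLeft k (MvPolynomial.X m))
    (G := trunc m) (fun α => ?_) p
  simp only [LinearMap.comp_apply, LinearMap.mulLeft_apply]
  rw [X_mul_mono, divs_mono, trunc_mono]
  have e2 : ∀ l, m < l → (α + Finsupp.single m 1 : X →₀ ℕ) l = α l := fun l hl => by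
    simp [hl.ne]
  have e3 : (∀ l, m < l → (α + Finsupp.single m 1 : X →₀ ℕ) l = 0) ↔ ∀ l, m < l → α l = 0 := by
    constructor
    · intro H l hl; rw [← e2 l hl]; exact H l hl
    · intro H l hl; rw [e2 l hl]; exact H l hl
  by_cases hc : ∀ l, m < l → α l = 0
  · rw [if_pos hc, if_pos ⟨by simp, e3.mpr hc⟩, add_tsub_cancel_right]
  · rw [if_neg hc, if_neg (fun H => hc (e3.mp H.2))]

theorem divs_gt {i m : X} (h : m < i) (p : MvPolynomial X k) :
    divs m (MvPolynomial.X i * p) = 0 := by
  classical
  refine mono_ext (F := divs m ∘ₗ LinearMap.mulLeft k (MvPolynomial.X i))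
    (G := 0) (fun α => ?_) p
  simp only [LinearMap.comp_apply, LinearMap.mulLeft_apply]
  rw [X_mul_mono, divs_mono, if_neg, LinearMap.zero_apply]
  rintro ⟨-, H⟩
  have := H i h
  rw [Finsupp.add_apply, Finsupp.single_eq_same] at this
  omega

theorem X_mul_divs (m : X) (α : X →₀ ℕ) [Decidable (0 < α m ∧ ∀ l, m < l → α l = 0)] :
    (MvPolynomial.X m : MvPolynomial X k) * divs m (MvPolynomial.monomial α 1) =
      if 0 < α m ∧ ∀ l, m < l → α l = 0 then MvPolynomial.monomial α 1 else 0 := by
  rw [divs_mono]
  split_ifs with h
  · rw [X_mul_mono]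
    have e4 : α - Finsupp.single m 1 + Finsupp.single m 1 = α := by
      ext l
      simp only [Finsupp.tsub_apply, Finsupp.add_apply, Finsupp.single_apply]
      by_cases hl : m = l
      · subst hl
        have := h.1
        simp; omega
      · simp [hl]
    rw [e4]
  · rw [mul_zero]

/-- Telescoping. -/
theorem sum_divs [Fintype X] (M : X) (p : MvPolynomial X k) :
    ∑ i ∈ Finset.univ.filter (fun i => M < i), MvPolynomial.X i * divs i p = p - trunc M p := by
  classical
  have key := mono_ext (F := ∑ i ∈ Finset.univ.filter (fun i => M < i),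
    LinearMap.mulLeft k (MvPolynomial.X i) ∘ₗ divs i)
    (G := LinearMap.id - trunc M) (fun α => ?_) p
  · simpa [LinearMap.sum_apply] using key
  · simp only [LinearMap.sum_apply, LinearMap.comp_apply, LinearMap.mulLeft_apply,
      LinearMap.sub_apply, LinearMap.id_apply, trunc_mono, X_mul_divs]
    by_cases hc : ∀ l, M < l → α l = 0
    · rw [if_pos hc, sub_self]
      apply Finset.sum_eq_zero
      intro i hi
      rw [if_neg]
      rintro ⟨h1, -⟩
      rw [Finset.mem_filter] at hi
      have := hc i hi.2
      omega
    · rw [if_neg hc, sub_zero]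
      push Not at hc
      have hne : (Finset.univ.filter (fun l => M < l ∧ α l ≠ 0)).Nonempty := by
        obtain ⟨l, hl⟩ := hc
        exact ⟨l, by simpa using hl⟩
      obtain ⟨i0, hi0, hmax⟩ := Finset.exists_max_image _ id hne
      simp only [Finset.mem_filter, Finset.mem_univ, true_and, id] at hi0 hmax
      rw [Finset.sum_eq_single i0]
      · rw [if_pos]
        refine ⟨Nat.pos_of_ne_zero hi0.2, fun l hl => ?_⟩
        by_contra hne
        exact absurd (hmax l ⟨hi0.1.trans hl, hne⟩) (not_le.mpr hl)
      · intro i hi hne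
        rw [if_neg]
        rintro ⟨h1, h3⟩
        rw [Finset.mem_filter] at hi
        have hle := hmax i ⟨hi.2, by omega⟩
        exact hi0.2 (h3 i0 (lt_of_le_of_ne hle hne))
      · intro hi
        exact absurd (Finset.mem_filter.mpr ⟨Finset.mem_univ _, hi0.1⟩) hi

omit [LinearOrder X] in
theorem sum_mono_mem {j : ℕ} {p : MvPolynomial X k} (N : Submodule k (MvPolynomial X k))
    (F : MvPolynomial X k →ₗ[k] MvPolynomial X k) (hp : p.IsHomogeneous j)
    (h : ∀ α : X →₀ ℕ, Finsupp.degree α = j → F (MvPolynomial.monomial α 1) ∈ N) : F p ∈ N := by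
  rw [p.as_sum, map_sum]
  apply N.sum_mem
  intro α hα
  have : (MvPolynomial.monomial α (MvPolynomial.coeff α p) : MvPolynomial X k) =
      MvPolynomial.coeff α p • MvPolynomial.monomial α 1 := by
    rw [MvPolynomial.smul_monomial, smul_eq_mul, mul_one]
  rw [this, map_smul]
  apply N.smul_mem
  apply h
  have := hp (MvPolynomial.mem_support_iff.mp hα)
  rw [← this, Finsupp.degree_eq_weight_one]; rfl

theorem divs_hom {j : ℕ} (m : X) {p : MvPolynomial X k} (hp : p.IsHomogeneous (j + 1)) :
    (divs m p).IsHomogeneous j := by
  classical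
  have := sum_mono_mem (MvPolynomial.homogeneousSubmodule X k j) (divs m) hp ?_
  · simpa using this
  · intro α hα
    rw [MvPolynomial.mem_homogeneousSubmodule, divs_mono]
    split_ifs with h
    · apply MvPolynomial.isHomogeneous_monomial
      have : α - Finsupp.single m 1 + Finsupp.single m 1 = α := by
        ext l
        simp only [Finsupp.tsub_apply, Finsupp.add_apply, Finsupp.single_apply]
        by_cases hl : m = l
        · subst hl
          have := h.1
          simp; omega
        · simp [hl]
      have h3 := congrArg Finsupp.degree this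
      rw [map_add, hα, Finsupp.degree_single] at h3
      omega
    · exact MvPolynomial.isHomogeneous_zero _ _ _

theorem sum_divs_hom [Fintype X] {j : ℕ} {p : MvPolynomial X k} (hp : p.IsHomogeneous (j + 1)) :
    ∑ i, MvPolynomial.X i * divs i p = p := by
  classical
  have key := sum_mono_mem (⊥ : Submodule k (MvPolynomial X k))
    ((∑ i, LinearMap.mulLeft k (MvPolynomial.X i) ∘ₗ divs i) - LinearMap.id) hp ?_
  · rw [Submodule.mem_bot] at key
    simpa [LinearMap.sum_apply, sub_eq_zero] using key
  · intro α hα
    rw [Submodule.mem_bot]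
    simp only [LinearMap.sum_apply, LinearMap.comp_apply, LinearMap.mulLeft_apply,
      LinearMap.sub_apply, LinearMap.id_apply, X_mul_divs]
    rw [sub_eq_zero]
    have hne : (Finset.univ.filter (fun l => α l ≠ 0)).Nonempty := by
      by_contra hcon
      rw [Finset.not_nonempty_iff_eq_empty, Finset.filter_eq_empty_iff] at hcon
      have : α = 0 := by ext l; simpa using hcon (Finset.mem_univ l)
      rw [this] at hα
      simp at hα
    obtain ⟨i0, hi0, hmax⟩ := Finset.exists_max_image _ id hne
    simp only [Finset.mem_filter, Finset.mem_univ, true_and, id] at hi0 hmax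
    rw [Finset.sum_eq_single i0]
    · rw [if_pos]
      refine ⟨Nat.pos_of_ne_zero hi0, fun l hl => ?_⟩
      by_contra hne
      exact absurd (hmax l hne) (not_le.mpr hl)
    · intro i hi hne
      rw [if_neg]
      rintro ⟨h1, h3⟩
      have hle := hmax i (by omega)
      exact hi0 (h3 i0 (lt_of_le_of_ne hle hne))
    · intro hi
      exact absurd (Finset.mem_univ _) hi

end Mono

section Exact

variable {k : Type*} [Field k] {A V : Type*} [LieRing A] [LieAlgebra k A] [AddCommGroup V]
    [Module k V] [LieRingModule A V] [LieModule k A V]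
variable {X : Type*} [Fintype X] (b : Basis X k V) (L : SLie k A V)

/-- Homogeneous polynomials of degree `j`. -/
def hom (j : ℕ) : Submodule k (Pol b) :=
  (MvPolynomial.homogeneousSubmodule X k j : Submodule k (MvPolynomial X k))

omit [Fintype X] in
theorem t_mul_mem {j : ℕ} (i : X) {p : Pol b} (hp : p ∈ hom b j) : t b i * p ∈ hom b (j + 1) := by
  have h := (MvPolynomial.isHomogeneous_X k i).mul ((MvPolynomial.mem_homogeneousSubmodule _ _).mp hp)
  rw [add_comm] at h
  exact (MvPolynomial.mem_homogeneousSubmodule _ _).mpr h

omit [Fintype X] in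
theorem mul_mem_hom {i j : ℕ} {p q : Pol b} (hp : p ∈ hom b i) (hq : q ∈ hom b j) :
    p * q ∈ hom b (i + j) := by
  have h := ((MvPolynomial.mem_homogeneousSubmodule _ _).mp hp).mul
    ((MvPolynomial.mem_homogeneousSubmodule _ _).mp hq)
  exact (MvPolynomial.mem_homogeneousSubmodule _ _).mpr h

theorem lin_mem (ℓ : V →ₗ[k] k) : lin b ℓ ∈ hom b 1 :=
  (hom b 1).sum_mem fun i _ => (hom b 1).smul_mem _
    ((MvPolynomial.mem_homogeneousSubmodule _ _).mpr (MvPolynomial.isHomogeneous_X k i))

/-- Monomials. -/
noncomputable def mono (α : X →₀ ℕ) : Pol b := (MvPolynomial.monomial α 1 : MvPolynomial X k)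

omit [Fintype X] in
theorem t_mul_mono (i : X) (α : X →₀ ℕ) : t b i * mono b α = mono b (α + Finsupp.single i 1) :=
  X_mul_mono i α

theorem D_mono_mem (a : A) : ∀ (j : ℕ) (α : X →₀ ℕ), Finsupp.degree α = j →
    D b a (mono b α) ∈ hom b j := by
  intro j
  induction j with
  | zero =>
    intro α hα
    rw [Finsupp.degree_eq_zero_iff] at hα
    subst hα
    have : mono b (0 : X →₀ ℕ) = 1 := rfl
    rw [this, Derivation.map_one_eq_zero]
    exact Submodule.zero_mem _
  | succ j ih =>
    intro α hα
    obtain ⟨i, hi⟩ : ∃ i, α i ≠ 0 := by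
      by_contra hcon
      push Not at hcon
      have : α = 0 := by ext l; simpa using hcon l
      rw [this] at hα; simp at hα
    have e : α - Finsupp.single i 1 + Finsupp.single i 1 = α := by
      classical
      ext l
      simp only [Finsupp.tsub_apply, Finsupp.add_apply, Finsupp.single_apply]
      by_cases hl : i = l
      · subst hl
        simp; omega
      · simp [hl]
    have hdeg : Finsupp.degree (α - Finsupp.single i 1) = j := by
      have h3 := congrArg Finsupp.degree e
      rw [map_add, hα, Finsupp.degree_single] at h3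
      omega
    rw [← e, ← t_mul_mono, Derivation.leibniz, D_t, smul_eq_mul, smul_eq_mul]
    apply Submodule.add_mem
    · exact t_mul_mem b i (ih _ hdeg)
    · rw [mul_neg]
      apply Submodule.neg_mem
      apply mul_mem_hom b _ (lin_mem b _)
      exact (MvPolynomial.mem_homogeneousSubmodule _ _).mpr
        (MvPolynomial.isHomogeneous_monomial 1 hdeg)

theorem hom_stable (j : ℕ) (a : A) (p : Pol b) (hp : p ∈ hom b j) : ⁅a, p⁆ ∈ hom b j := by
  rw [lie_def]
  exact sum_mono_mem (hom b j) ((D b a : Derivation k (Pol b) (Pol b)) : Pol b →ₗ[k] Pol b)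
    ((MvPolynomial.mem_homogeneousSubmodule _ _).mp hp) (fun α hα => D_mono_mem b a j α hα)

variable {b L}

theorem alt_of_low {E : Type*} [AddCommGroup E] [Module k E] [LieRingModule A E] [LieModule k A E]
    {n : ℕ} {φ : List X → E} (hφ : φ ∈ C b L)
    (h : ∀ w : List X, w.length + 2 = n → φ w = 0) : Alt n φ := by
  intro v i j u hl
  rw [(hφ n).rel b L v i j u hl, act_congr b _ u _ 0, map_zero, Pi.zero_apply]
  intro u' hu'
  rw [W_apply, Pi.zero_apply]
  apply h
  simp; omega

theorem exact_step [LinearOrder X] (h2 : (2 : k) ≠ 0) {r j : ℕ} {φ : List X → Pol b}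
    (hφ : φ ∈ C b L) (hj : ∀ w, φ w ∈ hom b (j + 1)) (hd : d b φ = 0)
    (h0 : ∀ w : List X, w.length < r → φ w = 0) :
    ∃ ψ ∈ C b L, (∀ w, ψ w ∈ hom b j) ∧ ∀ w : List X, w.length ≤ r → d b ψ w = φ w := by
  classical
  let dv : X → Pol b →ₗ[k] Pol b := fun m => (divs m : MvPolynomial X k →ₗ[k] MvPolynomial X k)
  let tr : X → Pol b →ₗ[k] Pol b := fun m => (trunc m : MvPolynomial X k →ₗ[k] MvPolynomial X k)
  have dv_lt : ∀ {i m : X}, i < m → ∀ p : Pol b, dv m (t b i * p) = t b i * dv m p :=
    fun h p => divs_lt h p
  have dv_self : ∀ (m : X) (p : Pol b), dv m (t b m * p) = tr m p := fun m p => divs_self m p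
  have dv_gt : ∀ {i m : X}, m < i → ∀ p : Pol b, dv m (t b i * p) = 0 :=
    fun h p => divs_gt h p
  have tele : ∀ (M : X) (p : Pol b),
      ∑ i ∈ Finset.univ.filter (fun i => M < i), t b i * dv i p = p - tr M p :=
    fun M p => sum_divs M p
  have tele0 : ∀ {p : Pol b}, p ∈ hom b (j + 1) → ∑ i, t b i * dv i p = p := fun hp =>
    sum_divs_hom ((MvPolynomial.mem_homogeneousSubmodule _ _).mp hp)
  have dv_mem : ∀ (m : X) {p : Pol b}, p ∈ hom b (j + 1) → dv m p ∈ hom b j := fun m p hp =>
    (MvPolynomial.mem_homogeneousSubmodule _ _).mpr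
      (divs_hom m ((MvPolynomial.mem_homogeneousSubmodule _ _).mp hp))
  let G : List X → Pol b := fun w => match w.getLast? with
    | none => 0
    | some m => if w.length = r + 1 then dv m (φ w.dropLast) else 0
  have hG1 : ∀ (u : List X) (m : X), u.length = r → G (u ++ [m]) = dv m (φ u) := by
    intro u m hu
    simp [G, hu]
  have hG0 : ∀ w : List X, w.length ≠ r + 1 → G w = 0 := by
    intro w hw
    simp only [G]
    cases w.getLast? with
    | none => rfl
    | some m => simp [hw]
  have hGm : ∀ w : List X, G w ∈ hom b j := by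
    intro w
    simp only [G]
    cases w.getLast? with
    | none => exact Submodule.zero_mem _
    | some m =>
      show (if w.length = r + 1 then dv m (φ w.dropLast) else 0) ∈ hom b j
      split_ifs
      · exact dv_mem m (hj _)
      · exact Submodule.zero_mem _
  obtain ⟨ψ, hψ, hψG⟩ := C.exists_ext (b := b) (L := L) h2 G
  have hψlow : ∀ w : List X, w.length ≤ r → ψ w = 0 := fun w hw =>
    C.vanish h2 hψ (n := r) (fun w hw hs => by rw [hψG w hs, hG0 w (by omega)]) w hw
  have hψalt : Alt (r + 1) ψ := alt_of_low hψ (fun w hw => hψlow w (by omega))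
  have hφalt : Alt r φ := alt_of_low hφ (fun w hw => h0 w (by omega))
  have claim : ∀ (m : X) (u : List X), u.length = r → (∀ x ∈ u, x < m) →
      ψ (u ++ [m]) = dv m (φ u) := by
    intro m u hu hm
    have := alt_vanish (k := k) h2 r
      (fun u => if ∀ x ∈ u, x < m then ψ (u ++ [m]) - dv m (φ u) else 0) ?_ ?_ u hu
    · rw [if_pos hm] at this
      exact sub_eq_zero.mp this
    · intro v i j u hl
      have hiff : (∀ x ∈ v ++ i :: j :: u, x < m) ↔ (∀ x ∈ v ++ j :: i :: u, x < m) := by
        constructor
        · intro H x hx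
          apply H x
          simp only [List.mem_append, List.mem_cons] at hx ⊢
          tauto
        · intro H x hx
          apply H x
          simp only [List.mem_append, List.mem_cons] at hx ⊢
          tauto
      beta_reduce
      by_cases hc : ∀ x ∈ v ++ i :: j :: u, x < m
      · rw [if_pos hc, if_pos (hiff.mp hc)]
        have e1 := hψalt v i j (u ++ [m]) (by simp; omega)
        have e2 := hφalt v i j u hl
        have e3 := congrArg (dv m) e2
        rw [map_add, map_zero] at e3
        have e4 : v ++ i :: j :: (u ++ [m]) = v ++ i :: j :: u ++ [m] := by simp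
        have e5 : v ++ j :: i :: (u ++ [m]) = v ++ j :: i :: u ++ [m] := by simp
        rw [e4, e5] at e1
        linear_combination e1 - e3
      · rw [if_neg hc, if_neg (fun H => hc (hiff.mpr H)), add_zero]
    · intro w hw hs
      split_ifs with hc
      · rw [hψG, hG1 w m hw, sub_self]
        rw [List.isChain_iff_pairwise] at hs ⊢
        rw [List.pairwise_append]
        refine ⟨hs, List.pairwise_singleton _ _, ?_⟩
        intro x hx y hy
        rw [List.mem_singleton] at hy
        rw [hy]; exact hc x hx
      · rfl
  refine ⟨ψ, hψ, fun w => C.values h2 (hom b j) (fun a e he => hom_stable b j a e he) hψ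
    (fun w hw => by rw [hψG w hw]; exact hGm w) w, ?_⟩
  have main : ∀ w : List X, w.length = r → d b ψ w - φ w = 0 := by
    apply alt_vanish (k := k) h2 r (fun w => d b ψ w - φ w)
    · intro v i j u hl
      have e1 : d b ψ (v ++ i :: j :: u) + d b ψ (v ++ j :: i :: u) = 0 := by
        rw [d_apply, d_apply, ← Finset.sum_add_distrib]
        apply Finset.sum_eq_zero
        intro l _
        have e1 := hψalt v i j (u ++ [l]) (by simp; omega)
        have e4 : v ++ i :: j :: (u ++ [l]) = v ++ i :: j :: u ++ [l] := by simp
        have e5 : v ++ j :: i :: (u ++ [l]) = v ++ j :: i :: u ++ [l] := by simp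
        rw [e4, e5] at e1
        rw [← mul_add, e1, mul_zero]
      have e2 := hφalt v i j u hl
      show d b ψ (v ++ i :: j :: u) - φ (v ++ i :: j :: u) +
        (d b ψ (v ++ j :: i :: u) - φ (v ++ j :: i :: u)) = 0
      linear_combination e1 - e2
    · intro w hw hs
      show d b ψ w - φ w = 0
      rw [sub_eq_zero]
      rcases List.eq_nil_or_concat w with rfl | ⟨u, M, rfl⟩
      · rw [d_apply, ← tele0 (hj [])]
        refine Finset.sum_congr rfl fun i _ => ?_
        rw [claim i [] hw (by simp)]
      · rw [List.concat_eq_append] at hw hs ⊢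
        have hlen : u.length + 1 = r := by simpa using hw
        have hlt : ∀ x ∈ u, x < M := by
          rw [List.isChain_iff_pairwise, List.pairwise_append] at hs
          intro x hx
          exact hs.2.2 x hx M (by simp)
        have term : ∀ i, t b i * ψ (u ++ [M] ++ [i]) =
            (if M < i then t b i * dv i (φ (u ++ [M])) else 0) +
            (if i = M then tr M (φ (u ++ [M])) else 0) - dv M (t b i * φ (u ++ [i])) := by
          intro i
          rcases lt_trichotomy M i with h | h | h
          · rw [if_pos h, if_neg h.ne', dv_gt h, claim i (u ++ [M]) (by simp; omega)]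
            · ring
            · intro x hx
              rw [List.mem_append, List.mem_singleton] at hx
              rcases hx with hx | hx
              · exact (hlt x hx).trans h
              · rw [hx]; exact h
          · subst h
            have e1 := hψalt u M M [] (by simp; omega)
            have e3 := two_cancel h2 e1
            have e4 : u ++ [M] ++ [M] = u ++ M :: M :: [] := by simp
            rw [if_neg (lt_irrefl _), if_pos rfl, dv_self, e4, e3]
            ring
          · have e1 := hψalt u M i [] (by simp; omega)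
            have e4 : u ++ [M] ++ [i] = u ++ M :: i :: [] := by simp
            have e5 : u ++ i :: M :: [] = u ++ [i] ++ [M] := by simp
            have e6 : ψ (u ++ [i] ++ [M]) = dv M (φ (u ++ [i])) := by
              apply claim
              · simp; omega
              · intro x hx
                rw [List.mem_append, List.mem_singleton] at hx
                rcases hx with hx | hx
                · exact hlt x hx
                · rw [hx]; exact h
            rw [e5, e6] at e1
            rw [if_neg (not_lt.mpr h.le), if_neg h.ne, dv_lt h, e4]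
            linear_combination t b i * e1
        rw [d_apply, Finset.sum_congr rfl fun i _ => term i, Finset.sum_sub_distrib,
          Finset.sum_add_distrib, ← Finset.sum_filter, tele, Finset.sum_ite_eq' Finset.univ M,
          if_pos (Finset.mem_univ _), ← map_sum, ← d_apply, hd, Pi.zero_apply, map_zero]
        ring
  intro w hw
  rcases hw.lt_or_eq with h | h
  · rw [h0 w h, d_apply]
    apply Finset.sum_eq_zero
    intro i _
    rw [hψlow _ (by simp; omega), mul_zero]
  · exact sub_eq_zero.mp (main w h)

end Exact

end Pool.Agent.MPc38bc8
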