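import Mathlib
import Pool.Agent.MP_c38bc8_al.Exact

namespace Pool.Agent.MPc38bc8

open Module

variable {k : Type*} [Field k] {A V : Type*} [LieRing A] [LieAlgebra k A] [AddCommGroup V]
    [Module k V] [LieRingModule A V] [LieModule k A V]
variable {X : Type*} [Fintype X] {b : Basis X k V} {L : SLie k A V}

/-- Exactness of the relative Koszul complex in positive degree. -/
theorem exactness [LinearOrder X] [Infinite k] (h2 : (2 : k) ≠ 0) {j : ℕ} {φ : List X → Pol b}
    (hφ : φ ∈ C b L) (hj : ∀ w, φ w ∈ hom b (j + 1)) (hd : d b φ = 0) :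
    ∃ ψ ∈ C b L, (∀ w, ψ w ∈ hom b j) ∧ d b ψ = φ := by
  have key : ∀ s : ℕ, ∀ φ : List X → Pol b, φ ∈ C b L → (∀ w, φ w ∈ hom b (j + 1)) →
      d b φ = 0 → (∀ w : List X, w.length + s ≤ Fintype.card X → φ w = 0) →
      ∃ ψ ∈ C b L, (∀ w, ψ w ∈ hom b j) ∧ d b ψ = φ := by
    intro s
    induction s with
    | zero =>
      intro φ hφ _ _ h0
      refine ⟨0, Submodule.zero_mem _, fun w => Submodule.zero_mem _, ?_⟩
      rw [map_zero]
      symm
      apply C.eq_zero h2 hφ
      intro w hw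
      apply h0
      have hn : w.Nodup := (List.isChain_iff_pairwise.mp hw).imp (fun h => ne_of_lt h)
      exact hn.length_le_card
    | succ s ih =>
      intro φ hφ hj hd h0
      obtain ⟨ψ, hψ, hψj, hψd⟩ := exact_step (r := Fintype.card X - s) h2 hφ hj hd
        (fun w hw => h0 w (by omega))
      obtain ⟨ψ', hψ', hψj', hψd'⟩ := ih (φ - d b ψ)
        (Submodule.sub_mem _ hφ (d_mem b L hψ))
        (fun w => Submodule.sub_mem _ (hj w)
          (by rw [d_apply]; exact Submodule.sum_mem _ fun i _ => t_mul_mem b i (hψj _)))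
        (by rw [map_sub, hd, d_d b L h2 hψ, sub_zero])
        (fun w hw => by rw [Pi.sub_apply, hψd w (by omega), sub_self])
      refine ⟨ψ + ψ', Submodule.add_mem _ hψ hψ',
        fun w => Submodule.add_mem _ (hψj w) (hψj' w), ?_⟩
      rw [map_add, hψd']; abel
  exact key (Fintype.card X + 1) φ hφ hj hd (fun w hw => by omega)

/-- Functions supported on the empty word. -/
noncomputable def delta (b : Basis X k V) (g : Pol b) : List X → Pol b := fun w => match w with
  | [] => g
  | _ :: _ => 0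

omit [Fintype X] in
theorem delta_nil (g : Pol b) : delta b g [] = g := rfl

omit [Fintype X] in
theorem delta_cons (g : Pol b) (i : X) (w : List X) : delta b g (i :: w) = 0 := rfl

theorem S_delta (x : V) (g : Pol b) : S b x (delta b g) = 0 := by
  ext1 w
  rw [S_apply]
  exact Finset.sum_eq_zero fun i _ => by rw [delta_cons, smul_zero]

theorem act_delta (a : A) {g : Pol b} (hg : ∀ a : A, ⁅a, g⁆ = 0) : act b a (delta b g) = 0 := by
  ext1 w
  cases w with
  | nil => rw [act_nil, delta_nil, hg]; rfl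
  | cons i w => rw [act_cons, S_delta, S_delta, map_zero]; simp

theorem d_delta (g : Pol b) : d b (delta b g) = 0 := by
  ext1 w
  rw [d_apply]
  apply Finset.sum_eq_zero
  intro i _
  cases w with
  | nil => rw [List.nil_append, delta_cons, mul_zero]
  | cons j w => rw [List.cons_append, delta_cons, mul_zero]

theorem delta_mem {g : Pol b} (hg : ∀ a : A, ⁅a, g⁆ = 0) : delta b g ∈ C b L := by
  intro n v i j u hl
  cases v with
  | nil =>
    rw [W_nil, R_apply, S_delta, S_delta, map_zero, map_zero, act_delta _ hg]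
    simp
  | cons c v =>
    rw [W_cons b, S_delta, map_zero, map_zero]; rfl

/-- Cocycles of degree `j`. -/
def Z (b : Basis X k V) (L : SLie k A V) (j : ℕ) : Submodule k (List X → Pol b) where
  carrier := {φ | φ ∈ C b L ∧ (∀ w, φ w ∈ hom b j) ∧ d b φ = 0}
  add_mem' h h' := ⟨Submodule.add_mem _ h.1 h'.1, fun w => Submodule.add_mem _ (h.2.1 w) (h'.2.1 w),
    by rw [map_add, h.2.2, h'.2.2, add_zero]⟩
  zero_mem' := ⟨Submodule.zero_mem _, fun w => Submodule.zero_mem _, map_zero _⟩
  smul_mem' c _ h := ⟨Submodule.smul_mem _ c h.1, fun w => Submodule.smul_mem _ c (h.2.1 w),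
    by rw [map_smul, h.2.2, smul_zero]⟩

/-- Evaluation of the value at the empty word. -/
noncomputable def evn (b : Basis X k V) (x : V) (φ : List X → Pol b) : k := ev b x (φ [])

theorem evn_S (x : V) (φ : List X → Pol b) : evn b x (S b x φ) = evn b x (d b φ) := by
  unfold evn
  rw [S_apply, d_apply, map_sum, map_sum]
  exact Finset.sum_congr rfl fun i _ => by
    rw [map_smul, map_mul, ev_t, List.nil_append, smul_eq_mul]

theorem hom_S {j : ℕ} {φ : List X → Pol b} (h : ∀ w, φ w ∈ hom b j) (x : V) (w : List X) :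
    S b x φ w ∈ hom b j := by
  rw [S_apply]
  exact Submodule.sum_mem _ fun i _ => Submodule.smul_mem _ _ (h _)

theorem hom_d {j : ℕ} {φ : List X → Pol b} (h : ∀ w, φ w ∈ hom b j) (w : List X) :
    d b φ w ∈ hom b (j + 1) := by
  rw [d_apply]
  exact Submodule.sum_mem _ fun i _ => t_mul_mem b i (h _)

theorem Z.S_mem {j : ℕ} {φ : List X → Pol b} (h : φ ∈ Z b L j) (x : V) : S b x φ ∈ Z b L j :=
  ⟨C.S_mem h.1 x, hom_S h.2.1 x, by rw [d_S, h.2.2, map_zero]⟩

omit [Fintype X] in
theorem hom_zero {p : Pol b} (hp : p ∈ hom b 0) : ∃ c : k, p = c • (1 : Pol b) := by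
  have h : p ∈ (1 : Submodule k (MvPolynomial X k)) := by
    rw [← MvPolynomial.homogeneousSubmodule_zero]; exact hp
  obtain ⟨c, hc⟩ := Submodule.mem_one.mp h
  refine ⟨c, ?_⟩
  rw [← hc]
  exact Algebra.algebraMap_eq_smul_one (A := MvPolynomial X k) c

theorem Z_zero {φ : List X → Pol b} (h : φ ∈ Z b L 0) : ∃ c : k, φ = c • delta b 1 := by
  obtain ⟨c, hc⟩ := hom_zero (h.2.1 [])
  refine ⟨c, ?_⟩
  have key : ∀ (w : List X) (i : X), φ (w ++ [i]) = 0 := by
    intro w i
    choose f hf using fun l => hom_zero (h.2.1 (w ++ [l]))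
    have h1 : d b φ w = 0 := by rw [h.2.2]; rfl
    rw [d_apply] at h1
    simp only [hf] at h1
    have h3 := congrArg (ev b (b i)) h1
    rw [map_sum, map_zero, Finset.sum_eq_single i] at h3
    · rw [map_mul, ev_t, map_smul, map_one, Basis.repr_self, Finsupp.single_eq_same, one_mul,
        smul_eq_mul, mul_one] at h3
      rw [hf i, h3, zero_smul]
    · intro l _ hl
      rw [map_mul, ev_t, Basis.repr_self, Finsupp.single_eq_of_ne hl, zero_mul]
    · intro hi; exact absurd (Finset.mem_univ i) hi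
  ext1 w
  rcases List.eq_nil_or_concat w with rfl | ⟨u, i, rfl⟩
  · rw [Pi.smul_apply, delta_nil, hc]
  · rw [List.concat_eq_append, key, Pi.smul_apply]
    cases u with
    | nil => rw [List.nil_append, delta_cons, smul_zero]
    | cons j u => rw [List.cons_append, delta_cons, smul_zero]

section Main

variable [LinearOrder X] [Infinite k] [FiniteDimensional k V] (h2 : (2 : k) ≠ 0)
  {x : V} (hx : x ≠ 0) (hxx : L.q x x = 0)

include hxx h2 in
omit [LinearOrder X] [Infinite k] [FiniteDimensional k V] in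
theorem S_S {φ : List X → Pol b} (hφ : φ ∈ C b L) : S b x (S b x φ) = 0 := by
  have := C.R_eq hφ x x
  rw [hxx, map_zero, LinearMap.zero_apply] at this
  exact two_cancel h2 this

include h2 hx hxx

omit [LinearOrder X] [Infinite k] in
/-- The coinduced module with values in homogeneous polynomials is free over `Λ(x)`. -/
theorem exact_hom {j : ℕ} {φ : List X → Pol b} (hφ : φ ∈ C b L) (hj : ∀ w, φ w ∈ hom b j)
    (h0 : S b x φ = 0) : ∃ ψ ∈ C b L, (∀ w, ψ w ∈ hom b j) ∧ S b x ψ = φ :=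
  C.exact b L h2 hx hxx (hom b j) (fun a e he => hom_stable b j a e he) hφ hj h0

theorem claim : ∀ (j : ℕ) {ω : List X → Pol b}, ω ∈ Z b L j → S b x ω = 0 → evn b x ω = 0 →
    ∃ ζ ∈ Z b L j, S b x ζ = ω := by
  intro j
  induction j with
  | zero =>
    intro ω hω _ he
    obtain ⟨c, rfl⟩ := Z_zero hω
    have : c = 0 := by
      have h3 : evn b x (c • delta b 1) = c := by
        unfold evn
        rw [Pi.smul_apply, delta_nil, map_smul, map_one, smul_eq_mul, mul_one]
      rw [← h3, he]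
    subst this
    exact ⟨0, Submodule.zero_mem _, by rw [map_zero, zero_smul]⟩
  | succ j ih =>
    intro ω hω hS he
    obtain ⟨η, hη, hηj, rfl⟩ := exactness h2 hω.1 hω.2.1 hω.2.2
    have h1 : S b x η ∈ Z b L j := ⟨C.S_mem hη x, hom_S hηj x, by rw [d_S, hS]⟩
    obtain ⟨ζ, hζ, hζS⟩ := ih h1 (S_S h2 hxx hη) (by rw [evn_S, he])
    obtain ⟨ξ, hξ, hξj, hξS⟩ := exact_hom (b := b) (L := L) h2 hx hxx (j := j) (φ := η - ζ)
      (Submodule.sub_mem _ hη hζ.1) (fun w => Submodule.sub_mem _ (hηj w) (hζ.2.1 w))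
      (by rw [map_sub, hζS, sub_self])
    refine ⟨d b ξ, ⟨d_mem b L hξ, hom_d hξj, d_d b L h2 hξ⟩, ?_⟩
    rw [← d_S, hξS, map_sub, hζ.2.2, sub_zero]

omit [LinearOrder X] in
theorem exists_rho : ∀ j : ℕ, ∃ ρ ∈ Z b L j, S b x ρ = 0 ∧ evn b x ρ = 1 := by
  intro j
  induction j with
  | zero =>
    refine ⟨delta b 1, ⟨delta_mem (fun a => ?_), fun w => ?_, d_delta 1⟩, S_delta x 1, ?_⟩
    · rw [lie_def, Derivation.map_one_eq_zero]
    · cases w with
      | nil => exact (MvPolynomial.mem_homogeneousSubmodule _ _).mpr (MvPolynomial.isHomogeneous_one _ _)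
      | cons i w => exact Submodule.zero_mem _
    · unfold evn; rw [delta_nil, map_one]
  | succ j ih =>
    obtain ⟨ρ, hρ, hρS, hρe⟩ := ih
    obtain ⟨r, hr, hrj, hrS⟩ := exact_hom (b := b) (L := L) h2 hx hxx hρ.1 hρ.2.1 hρS
    refine ⟨d b r, ⟨d_mem b L hr, hom_d hrj, d_d b L h2 hr⟩, ?_, ?_⟩
    · rw [← d_S, hrS, hρ.2.2]
    · rw [← evn_S, hrS, hρe]

end Main

/-- The Carlson type module attached to an invariant homogeneous polynomial `g`. -/
def Car (b : Basis X k V) (L : SLie k A V) (n : ℕ) (g : Pol b) : Submodule k (List X → Pol b) where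
  carrier := {φ | φ ∈ C b L ∧ (∀ w, φ w ∈ hom b n) ∧ ∃ c : k, d b φ = c • delta b g}
  add_mem' := by
    rintro φ ψ ⟨h1, h2, c, hc⟩ ⟨h1', h2', c', hc'⟩
    exact ⟨Submodule.add_mem _ h1 h1', fun w => Submodule.add_mem _ (h2 w) (h2' w), c + c',
      by rw [map_add, hc, hc', add_smul]⟩
  zero_mem' := ⟨Submodule.zero_mem _, fun w => Submodule.zero_mem _, 0, by rw [map_zero, zero_smul]⟩
  smul_mem' := by
    rintro r φ ⟨h1, h2, c, hc⟩
    exact ⟨Submodule.smul_mem _ r h1, fun w => Submodule.smul_mem _ r (h2 w), r * c,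
      by rw [map_smul, hc, mul_smul]⟩

theorem Car.S_mem {n : ℕ} {g : Pol b} {φ : List X → Pol b} (h : φ ∈ Car b L n g) (x : V) :
    S b x φ ∈ Car b L n g := by
  obtain ⟨h1, h2, c, hc⟩ := h
  exact ⟨C.S_mem h1 x, hom_S h2 x, 0, by rw [d_S, hc, map_smul, S_delta, smul_zero, zero_smul]⟩

theorem Car.act_mem {n : ℕ} {g : Pol b} (hg : ∀ a : A, ⁅a, g⁆ = 0) {φ : List X → Pol b}
    (h : φ ∈ Car b L n g) (a : A) : act b a φ ∈ Car b L n g := by
  obtain ⟨h1, h2, c, hc⟩ := h
  refine ⟨C.act_mem h1 a, fun w => ?_, 0, ?_⟩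
  · exact MPc38bc8.act_mem b (hom b n) (fun a e he => hom_stable b n a e he) a w φ (fun u _ => h2 u)
  · rw [d_act, hc, map_smul, act_delta a hg, smul_zero, zero_smul]

theorem Car.finite [LinearOrder X] (h2 : (2 : k) ≠ 0) (n : ℕ) (g : Pol b) :
    FiniteDimensional k (Car b L n g) := by
  have : FiniteDimensional k (hom b n) := by
    have hle : hom b n ≤ Submodule.span k ((fun α => mono b α) '' {α : X →₀ ℕ | α.degree = n}) := by
      intro p hp
      refine sum_mono_mem (Submodule.span k ((fun α => mono b α) '' {α : X →₀ ℕ | α.degree = n}))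
        LinearMap.id ((MvPolynomial.mem_homogeneousSubmodule _ _).mp hp) ?_
      intro α hα
      exact Submodule.subset_span ⟨α, hα, rfl⟩
    have hf : FiniteDimensional k
        (Submodule.span k ((fun α => mono b α) '' {α : X →₀ ℕ | α.degree = n})) :=
      FiniteDimensional.span_of_finite k ((Finsupp.finite_of_degree_eq n).image _)
    exact Submodule.finiteDimensional_of_le hle
  exact C.finite (b := b) (L := L) h2 (Car b L n g) (fun φ h => h.1) (hom b n) (fun φ h => h.2.1)

theorem Car.rank [LinearOrder X] [Infinite k] [FiniteDimensional k V] (h2 : (2 : k) ≠ 0) {x : V}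
    (hx : x ≠ 0) (hxx : L.q x x = 0) (n : ℕ) (g : Pol b) (hg : ∀ a : A, ⁅a, g⁆ = 0)
    (hgn : g ∈ hom b (n + 1)) :
    (∀ ω ∈ Car b L n g, S b x ω = 0 → ∃ η ∈ Car b L n g, S b x η = ω) ↔ ev b x g ≠ 0 := by
  have hevd : evn b x (delta b g) = ev b x g := rfl
  constructor
  · intro H h0
    obtain ⟨ρ, hρ, hρS, hρe⟩ := exists_rho (b := b) (L := L) h2 hx hxx n
    obtain ⟨η, hη, hηS⟩ := H ρ ⟨hρ.1, hρ.2.1, 0, by rw [hρ.2.2, zero_smul]⟩ hρS
    obtain ⟨h1, -, c, hc⟩ := hη
    rw [← hηS, evn_S, hc] at hρe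
    unfold evn at hρe
    rw [Pi.smul_apply, delta_nil, map_smul, h0, smul_zero] at hρe
    exact zero_ne_one hρe
  · intro hne ω hω hS
    obtain ⟨h1, hωn, c, hc⟩ := hω
    have hc0 : c = 0 := by
      have : evn b x (S b x ω) = 0 := by
        rw [hS]; exact map_zero _
      rw [evn_S, hc] at this
      unfold evn at this
      rw [Pi.smul_apply, delta_nil, map_smul, smul_eq_mul] at this
      exact (mul_eq_zero.mp this).resolve_right hne
    have hωZ : ω ∈ Z b L n := ⟨h1, hωn, by rw [hc, hc0, zero_smul]⟩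
    obtain ⟨ω0, hω0, hω0n, hω0d⟩ := exactness (b := b) (L := L) h2 (φ := delta b g)
      (delta_mem hg) (fun w => by
        cases w with
        | nil => exact hgn
        | cons i w => exact Submodule.zero_mem _) (d_delta g)
    let e : k := evn b x ω / ev b x g
    have hev0 : evn b x (S b x ω0) = ev b x g := by rw [evn_S, hω0d, hevd]
    have hZ0 : S b x ω0 ∈ Z b L n :=
      ⟨C.S_mem hω0 x, hom_S hω0n x, by rw [d_S, hω0d, S_delta]⟩
    obtain ⟨ζ, hζ, hζS⟩ := claim (b := b) (L := L) h2 hx hxx n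
      (ω := ω - e • S b x ω0) (Submodule.sub_mem _ hωZ (Submodule.smul_mem _ _ hZ0))
      (by rw [map_sub, hS, map_smul, S_S h2 hxx hω0, smul_zero, sub_zero])
      (by
        have : evn b x (ω - e • S b x ω0) = evn b x ω - e * evn b x (S b x ω0) := by
          unfold evn
          rw [Pi.sub_apply, Pi.smul_apply, map_sub, map_smul, smul_eq_mul]
        rw [this, hev0, div_mul_cancel₀ _ hne, sub_self])
    refine ⟨e • ω0 + ζ, Submodule.add_mem _ (Submodule.smul_mem _ _ ⟨hω0, hω0n, 1, ?_⟩)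
      ⟨hζ.1, hζ.2.1, 0, by rw [hζ.2.2, zero_smul]⟩, ?_⟩
    · rw [hω0d, one_smul]
    · rw [map_add, map_smul, hζS]; abel

end Pool.Agent.MPc38bc8
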