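import Mathlib
import Pool.Agent.MP_c38bc8_al.Carlson

namespace Pool.Agent.MPc38bc8

open Module TensorProduct

variable {k : Type*} [Field k] {A V : Type*} [LieRing A] [LieAlgebra k A] [AddCommGroup V]
    [Module k V] [LieRingModule A V] [LieModule k A V]

/-- A supermodule, with parity given by an involution `sg`. -/
structure Rep (L : SLie k A V) (M : Type*) [AddCommGroup M] [Module k M] where
  sg : Module.End k M
  r0 : A →ₗ[k] Module.End k M
  r1 : V →ₗ[k] Module.End k M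
  sg_sg : ∀ m, sg (sg m) = m
  r0_lie : ∀ a c m, r0 ⁅a, c⁆ m = r0 a (r0 c m) - r0 c (r0 a m)
  r0_sg : ∀ a m, r0 a (sg m) = sg (r0 a m)
  r1_sg : ∀ x m, r1 x (sg m) = - sg (r1 x m)
  r1_r1 : ∀ x y m, r1 x (r1 y m) + r1 y (r1 x m) = r0 (L.q x y) m
  r1_lie : ∀ a x m, r1 ⁅a, x⁆ m = r0 a (r1 x m) - r1 x (r0 a m)

/-- `ker = im` for the action of an odd element. -/
def Rep.Acyc {L : SLie k A V} {M : Type*} [AddCommGroup M] [Module k M] (ρ : Rep L M) (x : V) :
    Prop := ∀ m, ρ.r1 x m = 0 → ∃ m', ρ.r1 x m' = m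

section Tensor

variable {L : SLie k A V} {M N : Type*} [AddCommGroup M] [Module k M] [AddCommGroup N] [Module k N]
variable (ρ : Rep L M) (τ : Rep L N)

/-- Even action on a tensor product. -/
noncomputable def tr0 : A →ₗ[k] Module.End k (M ⊗[k] N) where
  toFun a := TensorProduct.map (ρ.r0 a) LinearMap.id + TensorProduct.map LinearMap.id (τ.r0 a)
  map_add' a c := by
    rw [map_add, map_add, TensorProduct.map_add_left, TensorProduct.map_add_right]; abel
  map_smul' c a := by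
    rw [map_smul, map_smul, TensorProduct.map_smul_left, TensorProduct.map_smul_right,
      RingHom.id_apply, smul_add]

/-- Odd action on a tensor product. -/
noncomputable def tr1 : V →ₗ[k] Module.End k (M ⊗[k] N) where
  toFun x := TensorProduct.map (ρ.r1 x) LinearMap.id + TensorProduct.map ρ.sg (τ.r1 x)
  map_add' a c := by
    rw [map_add, map_add, TensorProduct.map_add_left, TensorProduct.map_add_right]; abel
  map_smul' c a := by
    rw [map_smul, map_smul, TensorProduct.map_smul_left, TensorProduct.map_smul_right,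
      RingHom.id_apply, smul_add]

/-- Parity on a tensor product. -/
noncomputable def tsg : Module.End k (M ⊗[k] N) := TensorProduct.map ρ.sg τ.sg

theorem tr0_tmul (a : A) (m : M) (n : N) :
    tr0 ρ τ a (m ⊗ₜ n) = ρ.r0 a m ⊗ₜ n + m ⊗ₜ τ.r0 a n := rfl

theorem tr1_tmul (x : V) (m : M) (n : N) :
    tr1 ρ τ x (m ⊗ₜ n) = ρ.r1 x m ⊗ₜ n + ρ.sg m ⊗ₜ τ.r1 x n := rfl

theorem tsg_tmul (m : M) (n : N) : tsg ρ τ (m ⊗ₜ n) = ρ.sg m ⊗ₜ τ.sg n := rfl

theorem end_ext {F G : Module.End k (M ⊗[k] N)} (h : ∀ m n, F (m ⊗ₜ n) = G (m ⊗ₜ n)) (z) :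
    F z = G z := by
  have : F = G := TensorProduct.ext' h
  rw [this]

/-- Tensor product of supermodules. -/
noncomputable def Rep.tensor : Rep L (M ⊗[k] N) where
  sg := tsg ρ τ
  r0 := tr0 ρ τ
  r1 := tr1 ρ τ
  sg_sg z := by
    refine end_ext (F := tsg ρ τ * tsg ρ τ) (G := 1) (fun m n => ?_) z
    rw [Module.End.mul_apply, tsg_tmul, tsg_tmul, ρ.sg_sg, τ.sg_sg]; rfl
  r0_lie a c z := by
    refine end_ext (F := tr0 ρ τ ⁅a, c⁆) (G := tr0 ρ τ a * tr0 ρ τ c - tr0 ρ τ c * tr0 ρ τ a)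
      (fun m n => ?_) z
    rw [LinearMap.sub_apply, Module.End.mul_apply, Module.End.mul_apply, tr0_tmul, tr0_tmul,
      tr0_tmul, map_add, map_add, tr0_tmul, tr0_tmul, tr0_tmul, tr0_tmul, ρ.r0_lie, τ.r0_lie,
      TensorProduct.sub_tmul, TensorProduct.tmul_sub]
    abel
  r0_sg a z := by
    refine end_ext (F := tr0 ρ τ a * tsg ρ τ) (G := tsg ρ τ * tr0 ρ τ a) (fun m n => ?_) z
    rw [Module.End.mul_apply, Module.End.mul_apply, tsg_tmul, tr0_tmul, tr0_tmul, map_add,
      tsg_tmul, tsg_tmul, ρ.r0_sg, τ.r0_sg]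
  r1_sg x z := by
    refine end_ext (F := tr1 ρ τ x * tsg ρ τ) (G := - (tsg ρ τ * tr1 ρ τ x)) (fun m n => ?_) z
    rw [LinearMap.neg_apply, Module.End.mul_apply, Module.End.mul_apply, tsg_tmul, tr1_tmul,
      tr1_tmul, map_add, tsg_tmul, tsg_tmul, ρ.r1_sg, τ.r1_sg, TensorProduct.neg_tmul,
      TensorProduct.tmul_neg]
    abel
  r1_r1 x y z := by
    refine end_ext (F := tr1 ρ τ x * tr1 ρ τ y + tr1 ρ τ y * tr1 ρ τ x) (G := tr0 ρ τ (L.q x y))
      (fun m n => ?_) z
    rw [LinearMap.add_apply, Module.End.mul_apply, Module.End.mul_apply, tr1_tmul, tr1_tmul,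
      map_add, map_add, tr1_tmul, tr1_tmul, tr1_tmul, tr1_tmul, tr0_tmul, ← ρ.r1_r1, ← τ.r1_r1,
      ρ.r1_sg, ρ.r1_sg, ρ.sg_sg, TensorProduct.add_tmul, TensorProduct.tmul_add,
      TensorProduct.neg_tmul, TensorProduct.neg_tmul]
    abel
  r1_lie a x z := by
    refine end_ext (F := tr1 ρ τ ⁅a, x⁆) (G := tr0 ρ τ a * tr1 ρ τ x - tr1 ρ τ x * tr0 ρ τ a)
      (fun m n => ?_) z
    rw [LinearMap.sub_apply, Module.End.mul_apply, Module.End.mul_apply, tr1_tmul, tr1_tmul,
      tr0_tmul, map_add, map_add, tr1_tmul, tr1_tmul, tr0_tmul, tr0_tmul, ρ.r1_lie, τ.r1_lie,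
      ρ.r0_sg, TensorProduct.sub_tmul, TensorProduct.tmul_sub]
    abel

theorem exists_homotopy (h2 : (2 : k) ≠ 0) {x : V} (hxx : L.q x x = 0) (h : ρ.Acyc x) :
    ∃ H : Module.End k M, (∀ m, H (ρ.r1 x m) + ρ.r1 x (H m) = m) ∧
      ∀ m, H (ρ.sg m) = - ρ.sg (H m) := by
  have hsq : ∀ m, ρ.r1 x (ρ.r1 x m) = 0 := fun m => by
    have := ρ.r1_r1 x x m
    rw [hxx, map_zero, LinearMap.zero_apply] at this
    exact two_cancel h2 this
  let K := LinearMap.range (ρ.r1 x)
  let xt : M →ₗ[k] K := (ρ.r1 x).rangeRestrict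
  have hxt : ∀ m, ((xt m : K) : M) = ρ.r1 x m := fun m => rfl
  obtain ⟨s, hs⟩ := LinearMap.exists_rightInverse_of_surjective xt
    (LinearMap.range_rangeRestrict _)
  have hs' : ∀ z : K, ρ.r1 x (s z) = z := fun z => by
    have := congrArg (fun f => f z) hs
    simp only [LinearMap.comp_apply, LinearMap.id_apply] at this
    rw [← hxt, this]
  have hmem : ∀ m, m - s (xt m) ∈ K := fun m => by
    obtain ⟨m', hm'⟩ := h (m - s (xt m)) (by rw [map_sub, hs', hxt, sub_self])
    exact ⟨m', hm'⟩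
  let G : M →ₗ[k] K := LinearMap.codRestrict K (LinearMap.id - s ∘ₗ xt) hmem
  have hG : ∀ m, ((G m : K) : M) = m - s (xt m) := fun m => rfl
  let H : Module.End k M := s ∘ₗ G
  have hH : ∀ m, H (ρ.r1 x m) + ρ.r1 x (H m) = m := fun m => by
    have e1 : ρ.r1 x (H m) = m - s (xt m) := by
      show ρ.r1 x (s (G m)) = _
      rw [hs', hG]
    have e2 : G (ρ.r1 x m) = xt m := by
      ext
      rw [hG, hxt]
      have : xt (ρ.r1 x m) = 0 := by ext; rw [hxt, hsq]; rfl
      rw [this, map_zero, sub_zero]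
    have e3 : H (ρ.r1 x m) = s (xt m) := by
      show s (G (ρ.r1 x m)) = _
      rw [e2]
    rw [e1, e3]; abel
  refine ⟨(2 : k)⁻¹ • (H - ρ.sg * H * ρ.sg), fun m => ?_, fun m => ?_⟩
  · simp only [LinearMap.smul_apply, LinearMap.sub_apply, Module.End.mul_apply, map_smul, map_sub]
    have e1 := hH m
    have e2 := hH (ρ.sg m)
    have e3 := congrArg ρ.sg e2
    rw [map_add, ρ.r1_sg, map_neg, map_neg, ρ.sg_sg] at e3
    have e4 : ρ.sg (H (ρ.sg (ρ.r1 x m))) = ρ.sg (ρ.r1 x (H (ρ.sg m))) - m := by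
      linear_combination (norm := module) -e3
    rw [ρ.r1_sg, e4, ← smul_add]
    have e5 : H (ρ.r1 x m) - (ρ.sg (ρ.r1 x (H (ρ.sg m))) - m) +
        (ρ.r1 x (H m) - -ρ.sg (ρ.r1 x (H (ρ.sg m)))) = (2 : k) • m := by
      linear_combination (norm := module) e1
    rw [e5, smul_smul, inv_mul_cancel₀ h2, one_smul]
  · simp only [LinearMap.smul_apply, LinearMap.sub_apply, Module.End.mul_apply, map_smul, map_sub,
      ρ.sg_sg]
    rw [← smul_neg]
    congr 1
    abel

theorem acyc_tensor (h2 : (2 : k) ≠ 0) {x : V} (hxx : L.q x x = 0) :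
    (ρ.tensor τ).Acyc x ↔ ρ.Acyc x ∨ τ.Acyc x := by
  constructor
  · intro h
    by_contra hcon
    push Not at hcon
    obtain ⟨h1, h3⟩ := hcon
    unfold Rep.Acyc at h1 h3
    push Not at h1 h3
    obtain ⟨m, hm, hm'⟩ := h1
    obtain ⟨n, hn, hn'⟩ := h3
    obtain ⟨μ, hμ, hμ'⟩ := Submodule.exists_le_ker_of_notMem
      (p := LinearMap.range (ρ.r1 x)) (v := m) (fun ⟨m', h⟩ => hm' m' h)
    obtain ⟨ν, hν, hν'⟩ := Submodule.exists_le_ker_of_notMem
      (p := LinearMap.range (τ.r1 x)) (v := n) (fun ⟨m', h⟩ => hn' m' h)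
    have hμ0 : ∀ m, μ (ρ.r1 x m) = 0 := fun m => hμ' ⟨m, rfl⟩
    have hν0 : ∀ m, ν (τ.r1 x m) = 0 := fun m => hν' ⟨m, rfl⟩
    obtain ⟨z, hz⟩ := h (m ⊗ₜ n) (by
      show tr1 ρ τ x (m ⊗ₜ n) = 0
      rw [tr1_tmul, hm, hn, TensorProduct.zero_tmul, TensorProduct.tmul_zero, add_zero])
    have hz' : TensorProduct.map μ ν (tr1 ρ τ x z) = TensorProduct.map μ ν (m ⊗ₜ n) :=
      congrArg _ hz
    have h0 : TensorProduct.map μ ν (tr1 ρ τ x z) = 0 := by
      have : TensorProduct.map μ ν ∘ₗ tr1 ρ τ x = 0 := by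
        apply TensorProduct.ext'
        intro m n
        rw [LinearMap.comp_apply, tr1_tmul, map_add, TensorProduct.map_tmul,
          TensorProduct.map_tmul, hμ0, hν0, TensorProduct.zero_tmul, TensorProduct.tmul_zero,
          add_zero, LinearMap.zero_apply]
      have := congrArg (fun f => f z) this
      simpa using this
    rw [h0, TensorProduct.map_tmul] at hz'
    have := congrArg (TensorProduct.lid k k) hz'
    rw [map_zero, TensorProduct.lid_tmul, smul_eq_mul] at this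
    exact (mul_ne_zero hμ hν) this.symm
  · rintro (h | h)
    · obtain ⟨H, hH, hHs⟩ := exists_homotopy ρ h2 hxx h
      intro z hz
      refine ⟨TensorProduct.map H LinearMap.id z, ?_⟩
      have e : tr1 ρ τ x (TensorProduct.map H LinearMap.id z) +
          TensorProduct.map H LinearMap.id (tr1 ρ τ x z) = z := by
        refine end_ext (F := tr1 ρ τ x * TensorProduct.map H LinearMap.id +
          TensorProduct.map H LinearMap.id * tr1 ρ τ x) (G := 1) (fun m n => ?_) z
        rw [LinearMap.add_apply, Module.End.mul_apply, Module.End.mul_apply, tr1_tmul,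
          TensorProduct.map_tmul, tr1_tmul, map_add, TensorProduct.map_tmul,
          TensorProduct.map_tmul, hHs, TensorProduct.neg_tmul, LinearMap.id_apply,
          LinearMap.id_apply]
        have := hH m
        conv_rhs => rw [Module.End.one_apply, ← this, TensorProduct.add_tmul]
        abel
      have hz0 : tr1 ρ τ x z = 0 := hz
      rw [hz0, map_zero, add_zero] at e
      exact e
    · obtain ⟨H, hH, -⟩ := exists_homotopy τ h2 hxx h
      intro z hz
      refine ⟨TensorProduct.map ρ.sg H z, ?_⟩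
      have e : tr1 ρ τ x (TensorProduct.map ρ.sg H z) +
          TensorProduct.map ρ.sg H (tr1 ρ τ x z) = z := by
        refine end_ext (F := tr1 ρ τ x * TensorProduct.map ρ.sg H +
          TensorProduct.map ρ.sg H * tr1 ρ τ x) (G := 1) (fun m n => ?_) z
        rw [LinearMap.add_apply, Module.End.mul_apply, Module.End.mul_apply, tr1_tmul,
          TensorProduct.map_tmul, tr1_tmul, map_add, TensorProduct.map_tmul,
          TensorProduct.map_tmul, ρ.r1_sg, ρ.sg_sg, TensorProduct.neg_tmul]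
        have := hH n
        conv_rhs => rw [Module.End.one_apply, ← this, TensorProduct.tmul_add]
        abel
      have hz0 : tr1 ρ τ x z = 0 := hz
      rw [hz0, map_zero, add_zero] at e
      exact e

end Tensor

end Pool.Agent.MPc38bc8
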