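import Mathlib
import Pool.Agent.MP_c38bc8_al.Rep

namespace Pool.Agent.MPc38bc8

open Module TensorProduct

variable {k : Type*} [Field k] {A V : Type*} [LieRing A] [LieAlgebra k A] [AddCommGroup V]
    [Module k V] [LieRingModule A V] [LieModule k A V]

section Sign

variable {X : Type*} [Fintype X] {b : Basis X k V} {L : SLie k A V}
variable {E : Type*} [AddCommGroup E] [Module k E] [LieRingModule A E] [LieModule k A E]

/-- Parity on functions on words. -/
def sgE : Module.End k (List X → E) where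
  toFun φ w := ((-1 : k) ^ w.length) • φ w
  map_add' φ ψ := by ext w; simp
  map_smul' c φ := by ext w; simp [smul_comm c]

omit [Fintype X] [LieRingModule A E] [LieModule k A E] in
theorem sgE_apply (φ : List X → E) (w : List X) :
    sgE (k := k) φ w = ((-1 : k) ^ w.length) • φ w := rfl

omit [Fintype X] [LieRingModule A E] [LieModule k A E] in
theorem sgE_sgE (φ : List X → E) : sgE (k := k) (sgE (k := k) φ) = φ := by
  ext w
  rw [sgE_apply, sgE_apply, smul_smul, ← mul_pow]
  simp

omit [LieRingModule A V] [LieModule k A V] [LieRingModule A E] [LieModule k A E] in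
theorem S_sgE (x : V) (φ : List X → E) : S b x (sgE (k := k) φ) = - sgE (k := k) (S b x φ) := by
  ext w
  rw [Pi.neg_apply, sgE_apply, S_apply, S_apply, Finset.smul_sum, ← Finset.sum_neg_distrib]
  refine Finset.sum_congr rfl fun i _ => ?_
  rw [sgE_apply, List.length_cons, pow_succ, smul_comm (b.repr x i)]
  simp

theorem act_sgE (a : A) (φ : List X → E) :
    act b a (sgE (k := k) φ) = sgE (k := k) (act b a φ) := by
  ext w
  rw [sgE_apply, ← Pi.smul_apply, ← map_smul]
  apply act_congr
  intro u hu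
  rw [sgE_apply, hu]; rfl

theorem C.sgE_mem {φ : List X → E} (h : φ ∈ C b L) : sgE (k := k) φ ∈ C b L := by
  intro n v i j u hl
  have hW : W (k := k) v (sgE (k := k) φ) = ((-1 : k) ^ v.length) • sgE (k := k) (W (k := k) v φ) := by
    ext w
    rw [Pi.smul_apply, W_apply, sgE_apply, sgE_apply, W_apply, smul_smul, List.length_append, pow_add]
  have hR : ∀ ψ : List X → E, R b L (b i) (b j) (sgE (k := k) ψ) =
      sgE (k := k) (R b L (b i) (b j) ψ) := by
    intro ψ
    rw [R_apply, R_apply, act_sgE, S_sgE, S_sgE, map_neg, map_neg, S_sgE, S_sgE, neg_neg, neg_neg,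
      map_sub, map_add]
  rw [hW, map_smul, hR, Pi.smul_apply, sgE_apply, h n v i j u hl, smul_zero, smul_zero]

theorem d_sgE (φ : List X → Pol b) : d b (sgE (k := k) φ) = - sgE (k := k) (d b φ) := by
  ext1 w
  rw [Pi.neg_apply, sgE_apply, d_apply, d_apply, Finset.smul_sum, ← Finset.sum_neg_distrib]
  refine Finset.sum_congr rfl fun i _ => ?_
  rw [sgE_apply, List.length_append, List.length_singleton, pow_succ, mul_smul_comm]
  simp

omit [Fintype X] in
theorem sgE_delta (g : Pol b) : sgE (k := k) (delta b g) = delta b g := by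
  ext1 w
  rw [sgE_apply]
  cases w with
  | nil => simp
  | cons i w => rw [delta_cons, smul_zero]

theorem Car.sgE_mem {n : ℕ} {g : Pol b} {φ : List X → Pol b} (h : φ ∈ Car b L n g) :
    sgE (k := k) φ ∈ Car b L n g := by
  obtain ⟨h1, h2, c, hc⟩ := h
  refine ⟨C.sgE_mem h1, fun w => Submodule.smul_mem _ _ (h2 w), -c, ?_⟩
  rw [d_sgE, hc, map_smul, sgE_delta, neg_smul]

/-- The Carlson module as a supermodule. -/
noncomputable def carRep (b : Basis X k V) (L : SLie k A V) (n : ℕ) (g : Pol b)
    (hg : ∀ a : A, ⁅a, g⁆ = 0) : Rep L (Car b L n g) where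
  sg := (sgE (k := k)).restrict (fun _ h => Car.sgE_mem h)
  r0 :=
    { toFun := fun a => (act b a).restrict (fun _ h => Car.act_mem hg h a)
      map_add' := fun a c => by ext1 φ; ext1; simp [LinearMap.restrict_apply]
      map_smul' := fun c a => by ext1 φ; ext1; simp [LinearMap.restrict_apply] }
  r1 :=
    { toFun := fun x => (S b x).restrict (fun _ h => Car.S_mem h x)
      map_add' := fun a c => by ext1 φ; ext1; simp [LinearMap.restrict_apply]
      map_smul' := fun c a => by ext1 φ; ext1; simp [LinearMap.restrict_apply] }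
  sg_sg m := Subtype.ext (sgE_sgE m.1)
  r0_lie a c m := Subtype.ext (act_lie b a c m.1)
  r0_sg a m := Subtype.ext (act_sgE a m.1)
  r1_sg x m := Subtype.ext (S_sgE x m.1)
  r1_r1 x y m := Subtype.ext (by
    show S b x (S b y m.1) + S b y (S b x m.1) = act b (L.q x y) m.1
    rw [← C.R_eq m.2.1 x y, add_comm])
  r1_lie a x m := Subtype.ext (by
    show S b ⁅a, x⁆ m.1 = act b a (S b x m.1) - S b x (act b a m.1)
    rw [S_act]; abel)

theorem carRep_acyc [LinearOrder X] [Infinite k] [FiniteDimensional k V] (h2 : (2 : k) ≠ 0) {x : V}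
    (hx : x ≠ 0) (hxx : L.q x x = 0) (n : ℕ) (g : Pol b) (hg : ∀ a : A, ⁅a, g⁆ = 0)
    (hgn : g ∈ hom b (n + 1)) : (carRep b L n g hg).Acyc x ↔ ev b x g ≠ 0 := by
  rw [← Car.rank h2 hx hxx n g hg hgn]
  constructor
  · intro h ω hω h0
    obtain ⟨η, hη⟩ := h ⟨ω, hω⟩ (Subtype.ext h0)
    exact ⟨η.1, η.2, congrArg Subtype.val hη⟩
  · intro h ω h0
    obtain ⟨η, hη, hηS⟩ := h ω.1 ω.2 (congrArg Subtype.val h0)
    exact ⟨⟨η, hη⟩, Subtype.ext hηS⟩

/-- The trivial supermodule. -/
noncomputable def trivRep (L : SLie k A V) : Rep L k where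
  sg := LinearMap.id
  r0 := 0
  r1 := 0
  sg_sg m := rfl
  r0_lie a c m := by simp
  r0_sg a m := rfl
  r1_sg x m := by simp
  r1_r1 x y m := by simp
  r1_lie a x m := by simp

theorem trivRep_acyc (x : V) : ¬ (trivRep L).Acyc x := by
  intro h
  obtain ⟨m, hm⟩ := h 1 rfl
  exact zero_ne_one hm

end Sign

section Assembly

universe u

variable {k : Type u} [Field k] {A V : Type*} [LieRing A] [LieAlgebra k A] [AddCommGroup V]
    [Module k V] [LieRingModule A V] [LieModule k A V]

theorem exists_finset {n : ℕ} (b : Basis (Fin n) k V) [Infinite k] (p : ℕ) [CharP k p]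
    (hp : 3 ≤ p) (L : SLie k A V) (T : Finset (MvPolynomial (Fin n) k))
    (hT : ∀ f ∈ T, ∃ m, 0 < m ∧ f.IsHomogeneous m) :
    ∃ (M : Type u) (_ : AddCommGroup M) (_ : Module k M) (ρ : Rep L M), FiniteDimensional k M ∧
      ∀ x : V, x ≠ 0 → L.q x x = 0 → (ρ.Acyc x ↔ ∃ f ∈ T, MvPolynomial.eval (b.repr x) f ≠ 0) := by
  classical
  have hV : FiniteDimensional k V := Module.Finite.of_basis b
  have h2 : (2 : k) ≠ 0 := by
    intro h
    have h' : ((2 : ℕ) : k) = 0 := by exact_mod_cast h
    rw [CharP.cast_eq_zero_iff k p] at h'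
    exact absurd (Nat.le_of_dvd (by norm_num) h') (by omega)
  induction T using Finset.induction_on with
  | empty =>
    refine ⟨k, inferInstance, inferInstance, trivRep L, inferInstance, fun x _ _ => ?_⟩
    simp [trivRep_acyc]
  | insert f T hf ih =>
    obtain ⟨M, _, _, ρ, hM, hρ⟩ := ih (fun f hf => hT f (Finset.mem_insert_of_mem hf))
    obtain ⟨m, hm, hfm⟩ := hT f (Finset.mem_insert_self _ _)
    obtain ⟨F, hF⟩ : ∃ F : Pol b, F = f := ⟨f, rfl⟩
    have hFm : F ∈ hom b m := by
      rw [hF]; exact (MvPolynomial.mem_homogeneousSubmodule _ _).mpr hfm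
    have hFpow : ∀ q : ℕ, F ^ q ∈ hom b (m * q) := by
      intro q
      induction q with
      | zero =>
        rw [pow_zero, mul_zero]
        exact (MvPolynomial.mem_homogeneousSubmodule _ _).mpr (MvPolynomial.isHomogeneous_one _ _)
      | succ q ih => rw [pow_succ, mul_add, mul_one]; exact mul_mem_hom b ih hFm
    have hFev : ∀ x : V, ev b x F = MvPolynomial.eval (b.repr x) f := by
      intro x; rw [hF]; rfl
    let g : Pol b := F ^ p
    have hg : ∀ a : A, ⁅a, g⁆ = 0 := by
      intro a
      have hp0 : ((p : ℕ) : Pol b) = 0 := by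
        have h1 : algebraMap k (Pol b) (p : k) = 0 := by
          rw [CharP.cast_eq_zero, map_zero]
        rw [map_natCast] at h1
        exact h1
      show D b a (F ^ p) = 0
      rw [Derivation.leibniz_pow, ← Nat.cast_smul_eq_nsmul (Pol b) p, hp0, zero_smul]
    obtain ⟨N, hN⟩ : ∃ N, m * p = N + 1 := ⟨m * p - 1, by
      have : 0 < m * p := Nat.mul_pos hm (by omega)
      omega⟩
    have hgn : g ∈ hom b (N + 1) := by
      rw [← hN]
      exact hFpow p
    have hfin := Car.finite (b := b) (L := L) h2 N g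
    refine ⟨TensorProduct k (Car b L N g) M, inferInstance, inferInstance,
      (carRep b L N g hg).tensor ρ, inferInstance, fun x hx hxx => ?_⟩
    rw [acyc_tensor _ _ h2 hxx, hρ x hx hxx, carRep_acyc h2 hx hxx N g hg hgn]
    have hev : ev b x g = (MvPolynomial.eval (b.repr x) f) ^ p := by
      show ev b x (F ^ p) = _
      rw [map_pow, hFev]
    rw [hev]
    constructor
    · rintro (h | ⟨f', hf', h⟩)
      · exact ⟨f, Finset.mem_insert_self _ _, fun h0 => h (by rw [h0, zero_pow (by omega)])⟩
      · exact ⟨f', Finset.mem_insert_of_mem hf', h⟩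
    · rintro ⟨f', hf', h⟩
      rw [Finset.mem_insert] at hf'
      rcases hf' with rfl | hf'
      · exact Or.inl (pow_ne_zero _ h)
      · exact Or.inr ⟨f', hf', h⟩

end Assembly

end Pool.Agent.MPc38bc8
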