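import Mathlib
import Pool.Agent.MP_c38bc8_al.CarRep

namespace Pool.Agent.MPc38bc8

open Module

universe u w

variable {k : Type u} [Field k]

theorem eval_smul_hom {n m : ℕ} {f : MvPolynomial (Fin n) k} (hf : f.IsHomogeneous m) (c : k)
    (x : Fin n → k) : MvPolynomial.eval (c • x) f = c ^ m * MvPolynomial.eval x f := by
  rw [MvPolynomial.eval_eq, MvPolynomial.eval_eq, Finset.mul_sum]
  refine Finset.sum_congr rfl fun d hd => ?_
  have hdeg : ∑ i ∈ d.support, d i = m := by
    have := hf (MvPolynomial.mem_support_iff.mp hd)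
    rw [← this, Finsupp.weight_apply, Finsupp.sum]
    exact Finset.sum_congr rfl fun i _ => by simp
  simp only [Pi.smul_apply, smul_eq_mul, mul_pow]
  rw [Finset.prod_mul_distrib, Finset.prod_pow_eq_pow_sum, hdeg]
  ring

/-- Homogeneous components of a polynomial vanishing on a cone vanish on the cone. -/
theorem comp_vanish [Infinite k] {n : ℕ} (f : MvPolynomial (Fin n) k) (x : Fin n → k)
    (h : ∀ c : k, MvPolynomial.eval (c • x) f = 0) (m : ℕ) :
    MvPolynomial.eval x (MvPolynomial.homogeneousComponent m f) = 0 := by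
  classical
  let P : Polynomial k := ∑ i ∈ Finset.range (f.totalDegree + 1),
    Polynomial.C (MvPolynomial.eval x (MvPolynomial.homogeneousComponent i f)) * Polynomial.X ^ i
  have hP : P = 0 := by
    apply Polynomial.funext
    intro c
    rw [Polynomial.eval_zero, ← h c]
    conv_rhs => rw [← MvPolynomial.sum_homogeneousComponent f]
    simp only [P, Polynomial.eval_finsetSum, Polynomial.eval_mul, Polynomial.eval_C,
      Polynomial.eval_pow, Polynomial.eval_X, map_sum]
    exact Finset.sum_congr rfl fun i _ => by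
      rw [eval_smul_hom (MvPolynomial.homogeneousComponent_isHomogeneous i f), mul_comm]
  by_cases hm : m ∈ Finset.range (f.totalDegree + 1)
  · have := congrArg (fun P => Polynomial.coeff P m) hP
    simp only [P, Polynomial.finsetSum_coeff, Polynomial.coeff_C_mul_X_pow,
      Polynomial.coeff_zero] at this
    rw [Finset.sum_ite_eq, if_pos hm] at this
    exact this
  · rw [MvPolynomial.homogeneousComponent_eq_zero m f (by
      rw [Finset.mem_range] at hm; omega), map_zero]

variable {A V : Type*} [LieRing A] [LieAlgebra k A] [AddCommGroup V]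
    [Module k V] [LieRingModule A V] [LieModule k A V]

theorem exists_conic {n : ℕ} (b : Basis (Fin n) k V) [Infinite k] (p : ℕ) [CharP k p]
    (hp : 3 ≤ p) (L : SLie k A V) (W : Set V) (h0 : (0 : V) ∈ W)
    (hc : ∀ (c : k), ∀ x ∈ W, c • x ∈ W) (S : Set (MvPolynomial (Fin n) k))
    (hS : ∀ x, x ∈ W ↔ L.q x x = 0 ∧ ∀ f ∈ S, MvPolynomial.eval (b.repr x) f = 0) :
    ∃ (M : Type u) (_ : AddCommGroup M) (_ : Module k M) (ρ : Rep L M), FiniteDimensional k M ∧
      ∀ x : V, x ≠ 0 → L.q x x = 0 → (ρ.Acyc x ↔ x ∉ W) := by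
  classical
  let S' : Set (MvPolynomial (Fin n) k) :=
    {f | (∃ m, 0 < m ∧ f.IsHomogeneous m) ∧ ∀ x ∈ W, MvPolynomial.eval (b.repr x) f = 0}
  have hfg : (Submodule.span (MvPolynomial (Fin n) k) S').FG :=
    IsNoetherian.noetherian _
  obtain ⟨T, hT, hspan⟩ := (Submodule.fg_span_iff_fg_span_finset_subset S').mp hfg
  obtain ⟨M, i1, i2, ρ, hM, hρ⟩ := exists_finset b p hp L T (fun f hf => (hT hf).1)
  refine ⟨M, i1, i2, ρ, hM, fun x hx hxx => ?_⟩
  rw [hρ x hx hxx, ← not_iff_not, not_not]
  push Not
  constructor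
  · intro hvan
    have hall : ∀ f ∈ S', MvPolynomial.eval (b.repr x) f = 0 := by
      intro f hf
      have hmem : f ∈ Submodule.span (MvPolynomial (Fin n) k) (T : Set _) := by
        rw [← hspan]; exact Submodule.subset_span hf
      refine Submodule.span_induction (p := fun f _ => MvPolynomial.eval (b.repr x) f = 0)
        (fun f hf => hvan f hf) (map_zero _) (fun f g _ _ hf hg => by rw [map_add, hf, hg, add_zero])
        (fun a f _ hf => by rw [smul_eq_mul, map_mul, hf, mul_zero]) hmem
    rw [hS]
    refine ⟨hxx, fun f hf => ?_⟩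
    have hcone : ∀ y ∈ W, ∀ m, MvPolynomial.eval (b.repr y)
        (MvPolynomial.homogeneousComponent m f) = 0 := by
      intro y hy m
      apply comp_vanish
      intro c
      have := ((hS (c • y)).mp (hc c y hy)).2 f hf
      rw [map_smul] at this
      exact this
    rw [← MvPolynomial.sum_homogeneousComponent f, map_sum]
    apply Finset.sum_eq_zero
    intro m _
    rcases Nat.eq_zero_or_pos m with rfl | hm
    · have := hcone 0 h0 0
      rw [MvPolynomial.homogeneousComponent_zero, MvPolynomial.eval_C] at this ⊢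
      exact this
    · exact hall _ ⟨⟨m, hm, MvPolynomial.homogeneousComponent_isHomogeneous m f⟩,
        fun y hy => hcone y hy m⟩
  · intro hxW f hf
    exact (hT hf).2 x hxW

/-- An operator of square zero is acyclic iff the space has a basis of the form `e_i, x e_i`. -/
theorem acyc_iff_free {M : Type w} [AddCommGroup M] [Module k M] (F : Module.End k M)
    (hF : ∀ m, F (F m) = 0) : (∀ m, F m = 0 → ∃ m', F m' = m) ↔
      ∃ (ι : Type w) (e : Basis (ι ⊕ ι) k M), ∀ i, F (e (Sum.inl i)) = e (Sum.inr i) ∧
        F (e (Sum.inr i)) = 0 := by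
  constructor
  · intro h
    obtain ⟨K', hK'⟩ := Submodule.exists_isCompl (LinearMap.ker F)
    let e' := Basis.ofVectorSpace k K'
    let G : K' →ₗ[k] LinearMap.ker F :=
      LinearMap.codRestrict (LinearMap.ker F) (F ∘ₗ K'.subtype) (fun m => by
        rw [LinearMap.mem_ker]; exact hF m)
    have hGinj : Function.Injective G := by
      rw [← LinearMap.ker_eq_bot, LinearMap.ker_eq_bot']
      intro m hm
      have h1 : F (m : M) = 0 := congrArg Subtype.val hm
      have h3 : (m : M) ∈ LinearMap.ker F ⊓ K' := ⟨h1, m.2⟩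
      rw [hK'.inf_eq_bot] at h3
      exact Subtype.ext h3
    have hGsurj : Function.Surjective G := by
      rintro ⟨z, hz⟩
      obtain ⟨m, hm⟩ := h z hz
      have hm' : m ∈ LinearMap.ker F ⊔ K' := by rw [hK'.sup_eq_top]; trivial
      obtain ⟨a, ha, c, hc, rfl⟩ := Submodule.mem_sup.mp hm'
      refine ⟨⟨c, hc⟩, Subtype.ext ?_⟩
      rw [map_add, LinearMap.mem_ker.mp ha, zero_add] at hm
      exact hm
    let Ge : K' ≃ₗ[k] LinearMap.ker F := LinearEquiv.ofBijective G ⟨hGinj, hGsurj⟩
    let e : Basis (Basis.ofVectorSpaceIndex k K' ⊕ Basis.ofVectorSpaceIndex k K') k M :=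
      (e'.prod (e'.map Ge)).map (Submodule.prodEquivOfIsCompl K' (LinearMap.ker F) hK'.symm)
    have el : ∀ i, e (Sum.inl i) = (e' i : M) := fun i => by
      simp [e]
    have er : ∀ i, e (Sum.inr i) = F (e' i : M) := fun i => by
      simp only [e, Basis.map_apply, Basis.prod_apply_inr_snd, Submodule.coe_prodEquivOfIsCompl']
      simp
      rfl
    refine ⟨_, e, fun i => ⟨?_, ?_⟩⟩
    · rw [el, er]
    · rw [er, hF]
  · rintro ⟨ι, e, he⟩
    let H : Module.End k M := e.constr k (fun j => match j with
      | Sum.inl _ => 0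
      | Sum.inr i => e (Sum.inl i))
    have Hl : ∀ i, H (e (Sum.inl i)) = 0 := fun i => by
      simp only [H]; rw [Basis.constr_basis]
    have Hr : ∀ i, H (e (Sum.inr i)) = e (Sum.inl i) := fun i => by
      simp only [H]; rw [Basis.constr_basis]
    have key : F * H + H * F = 1 := by
      apply e.ext
      rintro (i | i)
      · rw [LinearMap.add_apply, Module.End.mul_apply, Module.End.mul_apply, Hl, map_zero,
          (he i).1, Hr, zero_add]; rfl
      · rw [LinearMap.add_apply, Module.End.mul_apply, Module.End.mul_apply, Hr, (he i).1,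
          (he i).2, map_zero, add_zero]; rfl
    intro m hm
    refine ⟨H m, ?_⟩
    have := congrArg (fun f => f m) key
    simp only [LinearMap.add_apply, Module.End.mul_apply, hm, map_zero, add_zero,
      Module.End.one_apply] at this
    exact this

end Pool.Agent.MPc38bc8
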