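import Mathlib

namespace Pool.Agent.MPc38bc8.Super

open Module

universe u v w

/-- The sign `(-1)^(ij)` attached to two parities. -/
def sgn (k : Type u) [Field k] (i j : ZMod 2) : k := if i = 1 ∧ j = 1 then -1 else 1

/-- A Lie superalgebra structure on a vector space `g` over a field of odd characteristic:
a `Z/2`-grading `g = part 0 ⊕ part 1` and an even bilinear bracket which is super skew-symmetric
and satisfies the super Jacobi identity; when `3 = 0` in `k` one also asks `[y,[y,y]] = 0` for odd
`y`. -/
structure LieSuperalgebra (k : Type u) [Field k] (g : Type v) [AddCommGroup g] [Module k g] where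
  part : ZMod 2 → Submodule k g
  isCompl : IsCompl (part 0) (part 1)
  br : g →ₗ[k] g →ₗ[k] g
  br_mem : ∀ (i j : ZMod 2) (x y : g), x ∈ part i → y ∈ part j → br x y ∈ part (i + j)
  skew : ∀ (i j : ZMod 2) (x y : g), x ∈ part i → y ∈ part j → br x y = -(sgn k i j • br y x)
  jacobi : ∀ (i j : ZMod 2) (x y z : g), x ∈ part i → y ∈ part j →
    br x (br y z) = br (br x y) z + sgn k i j • br y (br x z)
  cube : (3 : k) = 0 → ∀ y ∈ part 1, br y (br y y) = 0

variable {k : Type u} [Field k] {g : Type v} [AddCommGroup g] [Module k g]

/-- A supermodule over a Lie superalgebra (equivalently over its enveloping superalgebra):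
a `Z/2`-graded space `M = part 0 ⊕ part 1` with an action of `g` that respects parities and
turns the superbracket into the supercommutator. -/
structure Supermodule (L : LieSuperalgebra k g) (M : Type w) [AddCommGroup M] [Module k M] where
  part : ZMod 2 → Submodule k M
  isCompl : IsCompl (part 0) (part 1)
  act : g →ₗ[k] Module.End k M
  act_mem : ∀ (i j : ZMod 2) (x : g) (m : M), x ∈ L.part i → m ∈ part j → act x m ∈ part (i + j)
  act_br : ∀ (i j : ZMod 2) (x y : g), x ∈ L.part i → y ∈ L.part j →
    act (L.br x y) = act x * act y - sgn k i j • (act y * act x)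

/-- The odd nullcone `{x odd : [x,x] = 0}`. -/
def oddNullcone (L : LieSuperalgebra k g) : Set g := {x | x ∈ L.part 1 ∧ L.br x x = 0}

/-- `M` is free over the exterior algebra `Λ(x) = k ⊕ kx`: it has a basis of the form
`(e_i), (x e_i)`, with `x (x e_i) = 0`. -/
def IsFreeOver {L : LieSuperalgebra k g} {M : Type w} [AddCommGroup M] [Module k M]
    (ρ : Supermodule L M) (x : g) : Prop :=
  ∃ (ι : Type w) (e : Basis (ι ⊕ ι) k M), ∀ i, ρ.act x (e (Sum.inl i)) = e (Sum.inr i) ∧
    ρ.act x (e (Sum.inr i)) = 0

/-- The rank variety of a supermodule. -/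
def rankVariety {L : LieSuperalgebra k g} {M : Type w} [AddCommGroup M] [Module k M]
    (ρ : Supermodule L M) : Set g :=
  {x | x ∈ oddNullcone L ∧ ¬ IsFreeOver ρ x} ∪ {0}

/-- A nonempty conical Zariski closed subset `W` of the odd nullcone: `W` is stable under scalars
and is the set of the points of the odd nullcone where all polynomials (in linear functionals on
`g`) of some set vanish. -/
def IsClosedConical (L : LieSuperalgebra k g) (W : Set g) : Prop :=
  W.Nonempty ∧ (∀ (c : k), ∀ x ∈ W, c • x ∈ W) ∧
    ∃ S : Set (MvPolynomial (Module.Dual k g) k), W = {x | x ∈ oddNullcone L ∧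
      ∀ f ∈ S, MvPolynomial.eval (fun l : Module.Dual k g => l x) f = 0}

end Pool.Agent.MPc38bc8.Super
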