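import Mathlib
import Pool.Agent.MP_c38bc8_al.Conic
import Pool.Agent.MP_c38bc8_al.Defs

namespace Pool.Agent.MPc38bc8.Super

open Module

universe u v w

variable {k : Type u} [Field k] {g : Type v} [AddCommGroup g] [Module k g]

section Conversion

theorem sgn_zero_left (j : ZMod 2) : sgn k 0 j = 1 := by
  unfold sgn
  rw [if_neg]
  rintro ⟨h, -⟩
  exact absurd h (by decide)

theorem sgn_zero_right (j : ZMod 2) : sgn k j 0 = 1 := by
  unfold sgn
  rw [if_neg]
  rintro ⟨-, h⟩
  exact absurd h (by decide)

theorem sgn_one_one : sgn k 1 1 = -1 := by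
  unfold sgn
  rw [if_pos ⟨rfl, rfl⟩]

/-- Even part. -/
def Ev (L : LieSuperalgebra k g) (_h2 : (2 : k) ≠ 0) : Type v := ↥(L.part 0)

/-- Odd part. -/
def Od (L : LieSuperalgebra k g) (_h2 : (2 : k) ≠ 0) : Type v := ↥(L.part 1)

variable (L : LieSuperalgebra k g) (h2 : (2 : k) ≠ 0)

instance : AddCommGroup (Ev L h2) := inferInstanceAs (AddCommGroup ↥(L.part 0))
instance : Module k (Ev L h2) := inferInstanceAs (Module k ↥(L.part 0))
instance : AddCommGroup (Od L h2) := inferInstanceAs (AddCommGroup ↥(L.part 1))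
instance : Module k (Od L h2) := inferInstanceAs (Module k ↥(L.part 1))

variable {L h2}

theorem even_even {x y : g} (hx : x ∈ L.part 0) (hy : y ∈ L.part 0) : L.br x y ∈ L.part 0 := by
  have := L.br_mem 0 0 x y hx hy
  rwa [add_zero] at this

theorem even_odd {x y : g} (hx : x ∈ L.part 0) (hy : y ∈ L.part 1) : L.br x y ∈ L.part 1 := by
  have := L.br_mem 0 1 x y hx hy
  rwa [zero_add] at this

theorem odd_odd {x y : g} (hx : x ∈ L.part 1) (hy : y ∈ L.part 1) : L.br x y ∈ L.part 0 :=
  L.br_mem 1 1 x y hx hy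

theorem br_self_even (h2 : (2 : k) ≠ 0) {x : g} (hx : x ∈ L.part 0) : L.br x x = 0 := by
  have h := L.skew 0 0 x x hx hx
  rw [sgn_zero_left, one_smul] at h
  apply MPc38bc8.two_cancel h2
  nth_rewrite 1 [h]
  exact neg_add_cancel _

theorem odd_symm {x y : g} (hx : x ∈ L.part 1) (hy : y ∈ L.part 1) : L.br x y = L.br y x := by
  have h := L.skew 1 1 x y hx hy
  rw [sgn_one_one, neg_smul, one_smul, neg_neg] at h
  exact h

theorem even_jacobi {x y : g} (hx : x ∈ L.part 0) (j : ZMod 2) (hy : y ∈ L.part j) (z : g) :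
    L.br x (L.br y z) = L.br (L.br x y) z + L.br y (L.br x z) := by
  have h := L.jacobi 0 j x y z hx hy
  rwa [sgn_zero_left, one_smul] at h

theorem odd_cube {y : g} (hy : y ∈ L.part 1) : L.br (L.br y y) y = 0 := by
  have h1 := L.jacobi 1 1 y y y hy hy
  rw [sgn_one_one, neg_smul, one_smul] at h1
  have h3 := L.skew 0 1 (L.br y y) y (odd_odd hy hy) hy
  rw [sgn_zero_left, one_smul] at h3
  by_cases h : (3 : k) = 0
  · rw [h3, L.cube h y hy, neg_zero]
  · have h4 : (3 : k) • L.br y (L.br y y) = 0 := by
      rw [h3] at h1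
      linear_combination (norm := module) h1
    rw [h3, (smul_eq_zero.mp h4).resolve_left h, neg_zero]

noncomputable instance : LieRing (Ev L h2) where
  bracket x y := (⟨L.br x.1 y.1, even_even x.2 y.2⟩ : ↥(L.part 0))
  add_lie x y z := Subtype.ext (by
    show L.br (x.1 + y.1) z.1 = L.br x.1 z.1 + L.br y.1 z.1
    rw [map_add, LinearMap.add_apply])
  lie_add x y z := Subtype.ext (by
    show L.br x.1 (y.1 + z.1) = L.br x.1 y.1 + L.br x.1 z.1
    rw [map_add])
  lie_self x := Subtype.ext (br_self_even h2 x.2)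
  leibniz_lie x y z := Subtype.ext (even_jacobi x.2 0 y.2 z.1)

noncomputable instance : LieAlgebra k (Ev L h2) where
  lie_smul c x y := Subtype.ext (by
    show L.br x.1 (c • y.1) = c • L.br x.1 y.1
    rw [map_smul])

noncomputable instance : LieRingModule (Ev L h2) (Od L h2) where
  bracket x y := (⟨L.br x.1 y.1, even_odd x.2 y.2⟩ : ↥(L.part 1))
  add_lie x y z := Subtype.ext (by
    show L.br (x.1 + y.1) z.1 = L.br x.1 z.1 + L.br y.1 z.1
    rw [map_add, LinearMap.add_apply])
  lie_add x y z := Subtype.ext (by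
    show L.br x.1 (y.1 + z.1) = L.br x.1 y.1 + L.br x.1 z.1
    rw [map_add])
  leibniz_lie x y z := Subtype.ext (even_jacobi x.2 0 y.2 z.1)

noncomputable instance : LieModule k (Ev L h2) (Od L h2) where
  smul_lie c x y := Subtype.ext (by
    show L.br (c • x.1) y.1 = c • L.br x.1 y.1
    rw [map_smul, LinearMap.smul_apply])
  lie_smul c x y := Subtype.ext (by
    show L.br x.1 (c • y.1) = c • L.br x.1 y.1
    rw [map_smul])

variable (L h2)

/-- The Lie superalgebra in components. -/
noncomputable def toSLie : MPc38bc8.SLie k (Ev L h2) (Od L h2) where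
  q := LinearMap.mk₂ k (fun x y => (⟨L.br x.1 y.1, odd_odd x.2 y.2⟩ : ↥(L.part 0)))
    (fun x y z => Subtype.ext (by
      show L.br (x.1 + y.1) z.1 = L.br x.1 z.1 + L.br y.1 z.1
      rw [map_add, LinearMap.add_apply]))
    (fun c x y => Subtype.ext (by
      show L.br (c • x.1) y.1 = c • L.br x.1 y.1
      rw [map_smul, LinearMap.smul_apply]))
    (fun x y z => Subtype.ext (by
      show L.br x.1 (y.1 + z.1) = L.br x.1 y.1 + L.br x.1 z.1
      rw [map_add]))
    (fun c x y => Subtype.ext (by
      show L.br x.1 (c • y.1) = c • L.br x.1 y.1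
      rw [map_smul]))
  symm x y := Subtype.ext (odd_symm x.2 y.2)
  equi a x y := Subtype.ext (even_jacobi a.2 1 x.2 y.1)
  jac x := Subtype.ext (odd_cube x.2)

theorem q_coe (x y : Od L h2) : ((toSLie L h2).q x y).1 = L.br x.1 y.1 := rfl

variable {L h2}

section ToSuper

variable {M : Type w} [AddCommGroup M] [Module k M] (ρ : MPc38bc8.Rep (toSLie L h2) M)

/-- The grading defined by the parity involution. -/
def grading (i : ZMod 2) : Submodule k M :=
  if i = 0 then LinearMap.ker (ρ.sg - 1) else LinearMap.ker (ρ.sg + 1)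

theorem mem_grading_zero (m : M) : m ∈ grading ρ 0 ↔ ρ.sg m = m := by
  unfold grading
  rw [if_pos rfl, LinearMap.mem_ker, LinearMap.sub_apply, Module.End.one_apply, sub_eq_zero]

theorem mem_grading_one (m : M) : m ∈ grading ρ 1 ↔ ρ.sg m = -m := by
  unfold grading
  rw [if_neg (by decide), LinearMap.mem_ker, LinearMap.add_apply, Module.End.one_apply,
    add_eq_zero_iff_eq_neg]

variable (L h2) in
/-- Projection to the even part. -/
noncomputable def pr0 : g →ₗ[k] Ev L h2 :=
  (L.part 0).projectionOnto (L.part 1) L.isCompl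

variable (L h2) in
/-- Projection to the odd part. -/
noncomputable def pr1 : g →ₗ[k] Od L h2 :=
  (L.part 1).projectionOnto (L.part 0) L.isCompl.symm

variable (h2) in
/-- Even elements. -/
def mkEv (x : g) (hx : x ∈ L.part 0) : Ev L h2 := (⟨x, hx⟩ : ↥(L.part 0))

variable (h2) in
/-- Odd elements. -/
def mkOd (x : g) (hx : x ∈ L.part 1) : Od L h2 := (⟨x, hx⟩ : ↥(L.part 1))

theorem pr0_even {x : g} (hx : x ∈ L.part 0) : pr0 L h2 x = mkEv h2 x hx :=
  Submodule.projectionOnto_apply_of_mem_left L.isCompl hx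

theorem pr1_even {x : g} (hx : x ∈ L.part 0) : pr1 L h2 x = 0 :=
  Submodule.projectionOnto_apply_of_mem_right L.isCompl.symm hx

theorem pr1_odd {x : g} (hx : x ∈ L.part 1) : pr1 L h2 x = mkOd h2 x hx :=
  Submodule.projectionOnto_apply_of_mem_left L.isCompl.symm hx

theorem pr0_odd {x : g} (hx : x ∈ L.part 1) : pr0 L h2 x = 0 :=
  Submodule.projectionOnto_apply_of_mem_right L.isCompl hx

/-- The total action. -/
noncomputable def action : g →ₗ[k] Module.End k M := ρ.r0 ∘ₗ pr0 L h2 + ρ.r1 ∘ₗ pr1 L h2

theorem action_even {x : g} (hx : x ∈ L.part 0) :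
    action ρ x = ρ.r0 (mkEv h2 x hx) := by
  unfold action
  rw [LinearMap.add_apply, LinearMap.comp_apply, LinearMap.comp_apply, pr0_even hx, pr1_even hx,
    map_zero, add_zero]

theorem action_odd {x : g} (hx : x ∈ L.part 1) :
    action ρ x = ρ.r1 (mkOd h2 x hx) := by
  unfold action
  rw [LinearMap.add_apply, LinearMap.comp_apply, LinearMap.comp_apply, pr1_odd hx, pr0_odd hx,
    map_zero, zero_add]

theorem parity_cases (i : ZMod 2) : i = 0 ∨ i = 1 := by
  revert i; decide

/-- From a module in components to a supermodule. -/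
noncomputable def toSuper : Supermodule L M where
  part := grading ρ
  isCompl := by
    constructor
    · rw [Submodule.disjoint_def]
      intro m h0 h1
      rw [mem_grading_zero] at h0
      rw [mem_grading_one, h0] at h1
      apply MPc38bc8.two_cancel h2
      nth_rewrite 1 [h1]
      exact neg_add_cancel m
    · rw [codisjoint_iff_le_sup]
      intro m _
      have e : m = (2 : k)⁻¹ • (m + ρ.sg m) + (2 : k)⁻¹ • (m - ρ.sg m) := by
        rw [← smul_add]
        have : m + ρ.sg m + (m - ρ.sg m) = (2 : k) • m := by module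
        rw [this, smul_smul, inv_mul_cancel₀ h2, one_smul]
      rw [e]
      apply Submodule.add_mem_sup
      · apply Submodule.smul_mem
        rw [mem_grading_zero, map_add, ρ.sg_sg, add_comm]
      · apply Submodule.smul_mem
        rw [mem_grading_one, map_sub, ρ.sg_sg, neg_sub]
  act := action ρ
  act_mem i j x m hx hm := by
    rcases parity_cases i with rfl | rfl
    · rw [action_even ρ hx, zero_add]
      rcases parity_cases j with rfl | rfl
      · rw [mem_grading_zero] at hm ⊢
        rw [← ρ.r0_sg, hm]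
      · rw [mem_grading_one] at hm ⊢
        rw [← ρ.r0_sg, hm, map_neg]
    · rw [action_odd ρ hx]
      rcases parity_cases j with rfl | rfl
      · rw [add_zero]
        rw [mem_grading_zero] at hm
        rw [mem_grading_one]
        have := ρ.r1_sg (mkOd h2 x hx) m
        rw [hm] at this
        have h3 := congrArg Neg.neg this
        rw [neg_neg] at h3
        exact h3.symm
      · have e : (1 + 1 : ZMod 2) = 0 := by decide
        rw [e]
        rw [mem_grading_one] at hm
        rw [mem_grading_zero]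
        have := ρ.r1_sg (mkOd h2 x hx) m
        rw [hm, map_neg] at this
        exact (neg_injective this).symm
  act_br i j x y hx hy := by
    rcases parity_cases i with rfl | rfl
    · rcases parity_cases j with rfl | rfl
      · rw [sgn_zero_left, one_smul, action_even ρ hx, action_even ρ hy,
          action_even ρ (even_even hx hy)]
        ext m
        exact ρ.r0_lie (mkEv h2 x hx) (mkEv h2 y hy) m
      · rw [sgn_zero_left, one_smul, action_even ρ hx, action_odd ρ hy,
          action_odd ρ (even_odd hx hy)]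
        ext m
        exact ρ.r1_lie (mkEv h2 x hx) (mkOd h2 y hy) m
    · rcases parity_cases j with rfl | rfl
      · have hs := L.skew 1 0 x y hx hy
        rw [sgn_zero_right, one_smul] at hs
        rw [hs, sgn_zero_right, one_smul, map_neg, action_odd ρ hx, action_even ρ hy,
          action_odd ρ (even_odd hy hx)]
        ext m
        have := ρ.r1_lie (mkEv h2 y hy) (mkOd h2 x hx) m
        rw [LinearMap.neg_apply, LinearMap.sub_apply, ← neg_sub]
        exact congrArg Neg.neg this
      · rw [sgn_one_one, neg_smul, one_smul, sub_neg_eq_add, action_odd ρ hx, action_odd ρ hy,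
          action_even ρ (odd_odd hx hy)]
        ext m
        exact (ρ.r1_r1 (mkOd h2 x hx) (mkOd h2 y hy) m).symm

end ToSuper

end Conversion

/-- Every nonempty closed conical subset of the odd nullcone of a finite-dimensional Lie
superalgebra over an algebraically closed field of characteristic `p ≥ 3` is the rank variety of
a finite-dimensional supermodule. -/
theorem realization (k : Type u) [Field k] [IsAlgClosed k] (p : ℕ) [CharP k p] (hp : 3 ≤ p)
    (g : Type v) [AddCommGroup g] [Module k g] [FiniteDimensional k g]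
    (L : LieSuperalgebra k g) (W : Set g) (hW : IsClosedConical L W) :
    ∃ (M : Type u) (_ : AddCommGroup M) (_ : Module k M) (ρ : Supermodule L M),
      FiniteDimensional k M ∧ rankVariety ρ = W := by
  classical
  have hinf : Infinite k := IsAlgClosed.instInfinite
  have h2 : (2 : k) ≠ 0 := by
    intro h
    have h' : ((2 : ℕ) : k) = 0 := by exact_mod_cast h
    rw [CharP.cast_eq_zero_iff k p] at h'
    exact absurd (Nat.le_of_dvd (by norm_num) h') (by omega)
  have hfd : FiniteDimensional k (Od L h2) :=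
    inferInstanceAs (FiniteDimensional k ↥(L.part 1))
  let b : Basis (Fin (Module.finrank k (Od L h2))) k (Od L h2) := Module.finBasis k (Od L h2)
  obtain ⟨⟨w0, hw0⟩, hcone, S, hS⟩ := hW
  have h0W : (0 : g) ∈ W := by
    have := hcone 0 w0 hw0
    rwa [zero_smul] at this
  let W' : Set (Od L h2) := {x | x.1 ∈ W}
  let lft : MvPolynomial (Module.Dual k g) k →ₐ[k]
      MvPolynomial (Fin (Module.finrank k (Od L h2))) k :=
    MvPolynomial.aeval (fun l : Module.Dual k g => ∑ i, MvPolynomial.C (l (b i).1) * MvPolynomial.X i)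
  have hlft : ∀ (f : MvPolynomial (Module.Dual k g) k) (x : Od L h2),
      MvPolynomial.eval (b.repr x) (lft f) =
        MvPolynomial.eval (fun l : Module.Dual k g => l x.1) f := by
    intro f x
    have hx : ∀ l : Module.Dual k g, l x.1 = ∑ i, l (b i).1 * b.repr x i := by
      intro l
      let l' : Od L h2 →ₗ[k] k := l ∘ₗ (L.part 1).subtype
      have h1 : l' x = ∑ i, l' (b i) * b.repr x i := by
        conv_lhs => rw [← b.sum_repr x, map_sum]
        exact Finset.sum_congr rfl fun i _ => by rw [map_smul, smul_eq_mul, mul_comm]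
      exact h1
    have h3 : (MvPolynomial.aeval (fun i => b.repr x i) :
        MvPolynomial (Fin (Module.finrank k (Od L h2))) k →ₐ[k] k).comp lft =
        MvPolynomial.aeval (fun l : Module.Dual k g => l x.1) := by
      apply MvPolynomial.algHom_ext
      intro l
      rw [AlgHom.comp_apply, MvPolynomial.aeval_X, MvPolynomial.aeval_X, hx l]
      simp
    have h4 := congrArg (fun F => F f) h3
    exact h4
  obtain ⟨M, i1, i2, ρ, hM, hρ⟩ := MPc38bc8.exists_conic b p hp (toSLie L h2) W' h0W
    (fun c x hx => hcone c x.1 hx) (lft '' S) (by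
      intro x
      have e1 : x ∈ W' ↔ x.1 ∈ W := Iff.rfl
      rw [e1, hS, Set.mem_ofPred_eq]
      constructor
      · rintro ⟨⟨_, hx⟩, hf⟩
        refine ⟨Subtype.ext hx, ?_⟩
        rintro _ ⟨f, hfS, rfl⟩
        rw [hlft]; exact hf f hfS
      · rintro ⟨hx, hf⟩
        refine ⟨⟨x.2, congrArg Subtype.val hx⟩, fun f hfS => ?_⟩
        rw [← hlft]; exact hf _ ⟨f, hfS, rfl⟩)
  refine ⟨M, i1, i2, toSuper ρ, hM, ?_⟩
  ext x
  by_cases hx0 : x = 0
  · subst hx0
    exact ⟨fun _ => h0W, fun _ => Or.inr rfl⟩
  by_cases hxN : x ∈ oddNullcone L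
  · have hx1 : x ∈ L.part 1 := hxN.1
    have hne : mkOd h2 x hx1 ≠ 0 := fun h => hx0 (congrArg Subtype.val h)
    have hqq : (toSLie L h2).q (mkOd h2 x hx1) (mkOd h2 x hx1) = 0 := Subtype.ext hxN.2
    have hsq : ∀ m, ρ.r1 (mkOd h2 x hx1) (ρ.r1 (mkOd h2 x hx1) m) = 0 := fun m => by
      have := ρ.r1_r1 (mkOd h2 x hx1) (mkOd h2 x hx1) m
      rw [hqq, map_zero, LinearMap.zero_apply] at this
      exact MPc38bc8.two_cancel h2 this
    have hfree : IsFreeOver (toSuper ρ) x ↔ ρ.Acyc (mkOd h2 x hx1) := by
      unfold IsFreeOver MPc38bc8.Rep.Acyc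
      rw [MPc38bc8.acyc_iff_free _ hsq]
      have e : (toSuper ρ).act x = ρ.r1 (mkOd h2 x hx1) := action_odd ρ hx1
      rw [e]
    have hmem : mkOd h2 x hx1 ∈ W' ↔ x ∈ W := Iff.rfl
    constructor
    · rintro (⟨-, h⟩ | h)
      · rw [hfree, hρ _ hne hqq, not_not, hmem] at h
        exact h
      · exact absurd h hx0
    · intro h
      refine Or.inl ⟨hxN, ?_⟩
      rw [hfree, hρ _ hne hqq, not_not, hmem]
      exact h
  · constructor
    · rintro (⟨h, -⟩ | h)
      · exact absurd h hxN
      · exact absurd h hx0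
    · intro h
      rw [hS] at h
      exact absurd h.1 hxN

end Pool.Agent.MPc38bc8.Super
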